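import Mathlib

/-!
# Two-element `s`-bases of cyclic groups and L-shaped tiles

`Good n s`: two elements `a, b` of `ZMod n` represent everything with at most `s` summands.
`LShape n s`: there is an L-shaped tile `(l, h; w, y)` of area `n` and diameter at most `s` whose
lattice has a cyclic quotient.
-/

set_option autoImplicit false

namespace Pool.Agent.Helper74.BS

open Finset

/-- two elements of `ZMod n` represent every element with at most `s` summands -/
def Good (n s : ℕ) : Prop :=
  ∃ a b : ZMod n, ∀ x : ZMod n, ∃ i j : ℕ, i + j ≤ s ∧ x = i • a + j • b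

/-- an L-shape of area `n` with primitive lattice and diameter at most `s` -/
def LShape (n s : ℕ) : Prop :=
  ∃ l h w y : ℕ, w ≤ l ∧ y ≤ h ∧ l * h = n + w * y ∧
    Nat.gcd (Nat.gcd l h) (Nat.gcd w y) = 1 ∧ l + h ≤ s + 2 + min w y

/-- the L-shaped tile -/
def Tile (l h w y i j : ℕ) : Prop := i < l ∧ j < h ∧ (i + w < l ∨ j + y < h)

/-- reduction into the tile -/
lemma reduce {G : Type*} [AddCommGroup G] {l h w y n : ℕ} (hn : 1 ≤ n) (hw : w ≤ l) (hy : y ≤ h)
    (hdet : l * h = n + w * y) {a b : G} (h1 : l • a = y • b) (h2 : h • b = w • a) :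
    ∀ i j : ℕ, ∃ i' j' : ℕ, Tile l h w y i' j' ∧ i • a + j • b = i' • a + j' • b := by
  have h3 : (l - w) • a + (h - y) • b = 0 := by
    have e1 : (l - w) • a + w • a = l • a := by
      rw [← add_nsmul]; congr 1; omega
    have e2 : (h - y) • b + y • b = h • b := by
      rw [← add_nsmul]; congr 1; omega
    have : (l - w) • a + (h - y) • b + (w • a + y • b) = w • a + y • b := by
      calc (l - w) • a + (h - y) • b + (w • a + y • b)
          = ((l - w) • a + w • a) + ((h - y) • b + y • b) := by abel
        _ = l • a + h • b := by rw [e1, e2]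
        _ = y • b + w • a := by rw [h1, h2]
        _ = _ := by abel
    simpa using this
  have key : ∀ P i j : ℕ, (h + y) * i + (l + w) * j ≤ P →
      ∃ i' j' : ℕ, Tile l h w y i' j' ∧ i • a + j • b = i' • a + j' • b := by
    intro P
    induction P with
    | zero =>
      intro i j hP
      have hl : 0 < l := by
        rcases Nat.eq_zero_or_pos l with h0 | h0
        · subst h0; simp at hdet; omega
        · exact h0
      have hh : 0 < h := by
        rcases Nat.eq_zero_or_pos h with h0 | h0
        · subst h0; simp at hdet; omega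
        · exact h0
      have hi : i = 0 := by
        rcases Nat.eq_zero_or_pos i with h0 | h0
        · exact h0
        · exfalso
          have : 0 < (h + y) * i := Nat.mul_pos (by omega) h0
          omega
      have hj : j = 0 := by
        rcases Nat.eq_zero_or_pos j with h0 | h0
        · exact h0
        · exfalso
          have : 0 < (l + w) * j := Nat.mul_pos (by omega) h0
          omega
      refine ⟨0, 0, ⟨hl, hh, ?_⟩, by rw [hi, hj]⟩
      by_contra hcon
      push Not at hcon
      have e1 : w = l := by omega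
      have e2 : y = h := by omega
      rw [e1, e2] at hdet
      omega
    | succ P ih =>
      intro i j hP
      by_cases ht : Tile l h w y i j
      · exact ⟨i, j, ht, rfl⟩
      · have hcases : l ≤ i ∨ h ≤ j ∨ (l - w ≤ i ∧ h - y ≤ j) := by
          unfold Tile at ht
          by_contra hcon
          push Not at hcon
          apply ht
          refine ⟨by omega, by omega, ?_⟩
          by_contra h5
          push Not at h5
          have := hcon.2.2 (by omega)
          omega
        rcases hcases with hc | hc | ⟨hc1, hc2⟩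
        · obtain ⟨d, rfl⟩ := Nat.exists_eq_add_of_le hc
          obtain ⟨i', j', ht', he⟩ := ih d (j + y) (by nlinarith)
          refine ⟨i', j', ht', ?_⟩
          rw [← he, add_nsmul, add_nsmul, h1]
          abel
        · obtain ⟨d, rfl⟩ := Nat.exists_eq_add_of_le hc
          obtain ⟨i', j', ht', he⟩ := ih (i + w) d (by nlinarith)
          refine ⟨i', j', ht', ?_⟩
          rw [← he, add_nsmul, add_nsmul, h2]
          abel
        · obtain ⟨u, hu⟩ := Nat.exists_eq_add_of_le hw
          obtain ⟨v, hv⟩ := Nat.exists_eq_add_of_le hy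
          have hu' : l - w = u := by omega
          have hv' : h - y = v := by omega
          rw [hu', hv'] at h3
          rw [hu'] at hc1
          rw [hv'] at hc2
          obtain ⟨d, rfl⟩ := Nat.exists_eq_add_of_le hc1
          obtain ⟨e, rfl⟩ := Nat.exists_eq_add_of_le hc2
          obtain ⟨i', j', ht', he⟩ := ih d e (by
            subst hu hv
            nlinarith)
          refine ⟨i', j', ht', ?_⟩
          rw [← he, add_nsmul, add_nsmul]
          calc u • a + d • a + (v • b + e • b) = (u • a + v • b) + (d • a + e • b) := by abel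
            _ = _ := by rw [h3, zero_add]
  exact fun i j => key _ i j le_rfl

/-- elements of the tile have small sum -/
lemma tile_sum {l h w y s i j : ℕ} (ht : Tile l h w y i j)
    (hs : l + h ≤ s + 2 + min w y) : i + j ≤ s := by
  obtain ⟨h1, h2, h3⟩ := ht
  have : min w y ≤ w := min_le_left _ _
  have : min w y ≤ y := min_le_right _ _
  omega

/-- number of elements of the tile -/
noncomputable def tileSet (l h w y : ℕ) : Finset (ℕ × ℕ) :=
  (range l ×ˢ range h) \ (Ico (l - w) l ×ˢ Ico (h - y) h)

lemma mem_tileSet {l h w y : ℕ} (p : ℕ × ℕ) :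
    p ∈ tileSet l h w y ↔ Tile l h w y p.1 p.2 := by
  unfold tileSet Tile
  simp only [mem_sdiff, mem_product, mem_range, mem_Ico]
  omega

lemma card_tileSet {l h w y : ℕ} (hw : w ≤ l) (hy : y ≤ h) :
    (tileSet l h w y).card + w * y = l * h := by
  unfold tileSet
  rw [card_sdiff_of_subset]
  · rw [card_product, card_product, card_range, card_range, Nat.card_Ico, Nat.card_Ico]
    have e1 : l - (l - w) = w := by omega
    have e2 : h - (h - y) = y := by omega
    rw [e1, e2]
    exact Nat.sub_add_cancel (Nat.mul_le_mul hw hy)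
  · intro p hp
    simp only [mem_product, mem_range, mem_Ico] at hp ⊢
    omega

/-- the L-shape gives a good pair -/
theorem good_of_lshape {n s : ℕ} (hn : 1 ≤ n) (hL : LShape n s) : Good n s := by
  obtain ⟨l, h, w, y, hw, hy, hdet, hgcd, hs⟩ := hL
  have : NeZero n := ⟨by omega⟩
  set t : ℕ := ∏ r ∈ n.primeFactors.filter (fun r => ¬ (r ∣ h ∧ r ∣ w)), r with ht
  set A : ℕ := h + t * y with hA
  set B : ℕ := w + t * l with hB
  have hcop : Nat.gcd (Nat.gcd A B) n = 1 := by
    by_contra hcon
    obtain ⟨r, hr, hrd⟩ := Nat.exists_prime_and_dvd hcon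
    have hrn : r ∣ n := hrd.trans (Nat.gcd_dvd_right _ _)
    have hrA : r ∣ A := (hrd.trans (Nat.gcd_dvd_left _ _)).trans (Nat.gcd_dvd_left _ _)
    have hrB : r ∣ B := (hrd.trans (Nat.gcd_dvd_left _ _)).trans (Nat.gcd_dvd_right _ _)
    have hrt : r ∣ t ↔ ¬ (r ∣ h ∧ r ∣ w) := by
      constructor
      · intro hd
        rw [ht, Prime.dvd_finsetProd_iff hr.prime] at hd
        obtain ⟨q, hq, hrq⟩ := hd
        rw [mem_filter, Nat.mem_primeFactors] at hq
        have := (Nat.prime_dvd_prime_iff_eq hr hq.1.1).1 hrq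
        rw [this]
        exact hq.2
      · intro hd
        rw [ht]
        apply Finset.dvd_prod_of_mem (fun r => r)
        rw [mem_filter, Nat.mem_primeFactors]
        exact ⟨⟨hr, hrn, by omega⟩, hd⟩
    by_cases hc : r ∣ h ∧ r ∣ w
    · have hnt : ¬ r ∣ t := fun hd => (hrt.1 hd) hc
      have h1 : r ∣ t * y := (Nat.dvd_add_right hc.1).1 hrA
      have h2 : r ∣ t * l := (Nat.dvd_add_right hc.2).1 hrB
      have h3 : r ∣ y := (hr.dvd_mul.1 h1).resolve_left hnt
      have h4 : r ∣ l := (hr.dvd_mul.1 h2).resolve_left hnt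
      have : r ∣ Nat.gcd (Nat.gcd l h) (Nat.gcd w y) :=
        Nat.dvd_gcd (Nat.dvd_gcd h4 hc.1) (Nat.dvd_gcd hc.2 h3)
      rw [hgcd] at this
      exact hr.one_lt.ne' (Nat.dvd_one.1 this)
    · have hdt : r ∣ t := hrt.2 hc
      have h1 : r ∣ h := (Nat.dvd_add_left (hdt.mul_right y)).1 hrA
      have h2 : r ∣ w := (Nat.dvd_add_left (hdt.mul_right l)).1 hrB
      exact hc ⟨h1, h2⟩
  -- Bezout in `ZMod n`
  obtain ⟨p, q, hpq⟩ : ∃ p q : ZMod n, p * (A : ZMod n) + q * (B : ZMod n) = 1 := by
    have h1 : ((Nat.gcd (Nat.gcd A B) n : ℕ) : ℤ) =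
        (A * Nat.gcdA A B + B * Nat.gcdB A B) * Nat.gcdA (Nat.gcd A B) n +
          n * Nat.gcdB (Nat.gcd A B) n := by
      rw [Nat.gcd_eq_gcd_ab (Nat.gcd A B) n, ← Nat.gcd_eq_gcd_ab A B]
    rw [hcop] at h1
    have h2 := congrArg (fun z : ℤ => (z : ZMod n)) h1
    push_cast at h2
    rw [ZMod.natCast_self, zero_mul, add_zero] at h2
    refine ⟨(Nat.gcdA A B : ZMod n) * (Nat.gcdA (Nat.gcd A B) n : ZMod n),
      (Nat.gcdB A B : ZMod n) * (Nat.gcdA (Nat.gcd A B) n : ZMod n), ?_⟩
    rw [h2]
    ring
  have hdet' : (l : ZMod n) * h = w * y := by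
    have := congrArg (fun z : ℕ => (z : ZMod n)) hdet
    push_cast at this
    rw [ZMod.natCast_self, zero_add] at this
    exact this
  refine ⟨(A : ZMod n), (B : ZMod n), fun x => ?_⟩
  have e1 : l • (A : ZMod n) = y • (B : ZMod n) := by
    rw [nsmul_eq_mul, nsmul_eq_mul, hA, hB]
    push_cast
    linear_combination hdet'
  have e2 : h • (B : ZMod n) = w • (A : ZMod n) := by
    rw [nsmul_eq_mul, nsmul_eq_mul, hA, hB]
    push_cast
    linear_combination (t : ZMod n) * hdet'
  obtain ⟨i, j, hT, he⟩ := reduce hn hw hy hdet e1 e2 (x * p).val (x * q).val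
  refine ⟨i, j, tile_sum hT hs, ?_⟩
  rw [← he, nsmul_eq_mul, nsmul_eq_mul, ZMod.natCast_zmod_val, ZMod.natCast_zmod_val]
  linear_combination (-x) * hpq

end Pool.Agent.Helper74.BS
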