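import Pool.Agent.Helper74.BS.Crit

/-!
# Every good pair comes from an L-shape
-/

set_option autoImplicit false

namespace Pool.Agent.Helper74.BS

open Finset

/-- `(i, j)` is the least representative of its class: smallest sum, then smallest `i` -/
def Least {n : ℕ} (a b : ZMod n) (i j : ℕ) : Prop :=
  ∀ i' j' : ℕ, i' • a + j' • b = i • a + j • b → i + j < i' + j' ∨ (i + j = i' + j' ∧ i ≤ i')

lemma least_exists {n : ℕ} (a b x : ZMod n) (h : ∃ i j : ℕ, x = i • a + j • b) :
    ∃ i j : ℕ, Least a b i j ∧ x = i • a + j • b := by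
  classical
  have h1 : ∃ m, ∃ i j : ℕ, i + j = m ∧ x = i • a + j • b := by
    obtain ⟨i, j, hx⟩ := h
    exact ⟨i + j, i, j, rfl, hx⟩
  have h2 : ∃ i, ∃ j : ℕ, i + j = Nat.find h1 ∧ x = i • a + j • b := by
    obtain ⟨i, j, hs, hx⟩ := Nat.find_spec h1
    exact ⟨i, j, hs, hx⟩
  obtain ⟨j, hs, hx⟩ := Nat.find_spec h2
  refine ⟨Nat.find h2, j, ?_, hx⟩
  intro i' j' he
  have h3 : Nat.find h1 ≤ i' + j' := Nat.find_min' h1 ⟨i', j', rfl, by rw [hx, he]⟩
  rcases Nat.lt_or_ge (Nat.find h1) (i' + j') with h4 | h4
  · left; omega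
  · right
    exact ⟨by omega, Nat.find_min' h2 ⟨j', by omega, by rw [hx, he]⟩⟩

lemma least_unique {n : ℕ} {a b : ZMod n} {i j i' j' : ℕ} (h1 : Least a b i j)
    (h2 : Least a b i' j') (h : i • a + j • b = i' • a + j' • b) : i = i' ∧ j = j' := by
  have e1 := h1 i' j' h.symm
  have e2 := h2 i j h
  omega

lemma least_down {n : ℕ} {a b : ZMod n} {i j i' j' : ℕ} (h1 : Least a b i j)
    (hi : i' ≤ i) (hj : j' ≤ j) : Least a b i' j' := by
  obtain ⟨d, rfl⟩ := Nat.exists_eq_add_of_le hi
  obtain ⟨e, rfl⟩ := Nat.exists_eq_add_of_le hj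
  intro p q hpq
  have := h1 (p + d) (q + e) (by
    simp only [add_nsmul]
    calc p • a + d • a + (q • b + e • b) = (p • a + q • b) + (d • a + e • b) := by abel
      _ = (i' • a + j' • b) + (d • a + e • b) := by rw [hpq]
      _ = _ := by abel)
  omega

lemma least_zero {n : ℕ} (a b : ZMod n) : Least a b 0 0 := by
  intro i' j' _
  omega

section

variable {n : ℕ} {a b : ZMod n} (hrep : ∀ x : ZMod n, ∃ i j : ℕ, x = i • a + j • b)

include hrep

lemma corner {i j : ℕ} (h0 : ¬ Least a b (i + 1) (j + 1)) (h1 : Least a b i (j + 1))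
    (h2 : Least a b (i + 1) j) : (i + 1) • a + (j + 1) • b = 0 := by
  obtain ⟨i', j', hl, hx⟩ := least_exists a b _ (hrep ((i + 1) • a + (j + 1) • b))
  have hi : i' = 0 := by
    rcases i' with _ | k
    · rfl
    · exfalso
      have e1 := h1 k j' (by
        have : k • a + j' • b + a = i • a + (j + 1) • b + a := by
          calc k • a + j' • b + a = (k + 1) • a + j' • b := by rw [succ_nsmul]; abel
            _ = _ := by rw [← hx, succ_nsmul a i]; abel
        exact add_right_cancel this)
      have e2 := hl (i + 1) (j + 1) hx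
      have e3 : k = i := by omega
      have e4 : j' = j + 1 := by omega
      rw [e3, e4] at hl
      exact h0 hl
  have hj : j' = 0 := by
    rcases j' with _ | k
    · rfl
    · exfalso
      have e1 := h2 i' k (by
        have : i' • a + k • b + b = (i + 1) • a + j • b + b := by
          calc i' • a + k • b + b = i' • a + (k + 1) • b := by rw [succ_nsmul]; abel
            _ = _ := by rw [← hx, succ_nsmul b j]; abel
        exact add_right_cancel this)
      have e2 := hl (i + 1) (j + 1) hx
      have e3 : i' = i + 1 := by omega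
      have e4 : k = j := by omega
      rw [e3, e4] at hl
      exact h0 hl
  rw [hx, hi, hj]
  simp

lemma axis_l {m : ℕ} (h0 : ¬ Least a b (m + 1) 0) (h1 : Least a b m 0) :
    ∃ y, Least a b 0 y ∧ (m + 1) • a = y • b := by
  obtain ⟨i', j', hl, hx⟩ := least_exists a b _ (hrep ((m + 1) • a + 0 • b))
  have hi : i' = 0 := by
    rcases i' with _ | k
    · rfl
    · exfalso
      have e1 := h1 k j' (by
        have : k • a + j' • b + a = m • a + 0 • b + a := by
          calc k • a + j' • b + a = (k + 1) • a + j' • b := by rw [succ_nsmul]; abel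
            _ = _ := by rw [← hx, succ_nsmul a m]; abel
        exact add_right_cancel this)
      have e2 := hl (m + 1) 0 hx
      have e3 : k = m := by omega
      have e4 : j' = 0 := by omega
      rw [e3, e4] at hl
      exact h0 hl
  subst hi
  refine ⟨j', hl, ?_⟩
  simpa using hx

lemma axis_h {m : ℕ} (h0 : ¬ Least a b 0 (m + 1)) (h1 : Least a b 0 m) :
    ∃ w, Least a b w 0 ∧ (m + 1) • b = w • a := by
  obtain ⟨i', j', hl, hx⟩ := least_exists a b _ (hrep (0 • a + (m + 1) • b))
  have hj : j' = 0 := by
    rcases j' with _ | k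
    · rfl
    · exfalso
      have e1 := h1 i' k (by
        have : i' • a + k • b + b = 0 • a + m • b + b := by
          calc i' • a + k • b + b = i' • a + (k + 1) • b := by rw [succ_nsmul]; abel
            _ = _ := by rw [← hx, succ_nsmul b m]; abel
        exact add_right_cancel this)
      have e2 := hl 0 (m + 1) hx
      have e3 : i' = 0 := by omega
      have e4 : k = m := by omega
      rw [e3, e4] at hl
      exact h0 hl
  subst hj
  refine ⟨i', hl, ?_⟩
  simpa using hx

end

/-- a good pair gives an L-shape -/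
theorem lshape_of_good {n s : ℕ} (hn : 1 ≤ n) (hg : Good n s) :
    ∃ l h w y : ℕ, w < l ∧ y < h ∧ l * h = n + w * y ∧
    Nat.gcd (Nat.gcd l h) (Nat.gcd w y) = 1 ∧ l + h ≤ s + 2 + min w y := by
  classical
  have : NeZero n := ⟨by omega⟩
  obtain ⟨a, b, hab⟩ := hg
  have hrep : ∀ x : ZMod n, ∃ i j : ℕ, x = i • a + j • b := by
    intro x
    obtain ⟨i, j, _, hx⟩ := hab x
    exact ⟨i, j, hx⟩
  have hsum : ∀ i j : ℕ, Least a b i j → i + j ≤ s := by
    intro i j hl
    obtain ⟨i', j', hs, hx⟩ := hab (i • a + j • b)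
    have := hl i' j' hx.symm
    omega
  -- the axis corners
  have hexl : ∃ l, ¬ Least a b l 0 := ⟨s + 1, fun hc => by
    have := hsum _ _ hc
    omega⟩
  have hexh : ∃ h, ¬ Least a b 0 h := ⟨s + 1, fun hc => by
    have := hsum _ _ hc
    omega⟩
  obtain ⟨l, hl0, hl1⟩ : ∃ l, ¬ Least a b (l + 1) 0 ∧ ∀ i ≤ l, Least a b i 0 := by
    have h1 := Nat.find_spec hexl
    have h2 : Nat.find hexl ≠ 0 := by
      intro h3
      rw [h3] at h1
      exact h1 (least_zero a b)
    obtain ⟨l, hl⟩ := Nat.exists_eq_succ_of_ne_zero h2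
    refine ⟨l, by rw [hl] at h1; exact h1, fun i hi => ?_⟩
    by_contra hcon
    have := Nat.find_min' hexl hcon
    omega
  obtain ⟨h, hh0, hh1⟩ : ∃ h, ¬ Least a b 0 (h + 1) ∧ ∀ i ≤ h, Least a b 0 i := by
    have h1 := Nat.find_spec hexh
    have h2 : Nat.find hexh ≠ 0 := by
      intro h3
      rw [h3] at h1
      exact h1 (least_zero a b)
    obtain ⟨l, hl⟩ := Nat.exists_eq_succ_of_ne_zero h2
    refine ⟨l, by rw [hl] at h1; exact h1, fun i hi => ?_⟩
    by_contra hcon
    have := Nat.find_min' hexh hcon
    omega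
  obtain ⟨y, hy0, hy⟩ := axis_l hrep hl0 (hl1 l le_rfl)
  obtain ⟨w, hw0, hw⟩ := axis_h hrep hh0 (hh1 h le_rfl)
  have hyh : y < h + 1 := by
    by_contra hcon
    exact hh0 (least_down hy0 le_rfl (by omega))
  have hwl : w < l + 1 := by
    by_contra hcon
    exact hl0 (least_down hw0 (by omega) le_rfl)
  -- tile = set of least representatives
  have htile : ∀ i j : ℕ, Least a b i j → Tile (l + 1) (h + 1) w y i j := by
    intro i j hij
    have hi : i < l + 1 := by
      by_contra hcon
      exact hl0 (least_down hij (by omega) (Nat.zero_le _))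
    have hj : j < h + 1 := by
      by_contra hcon
      exact hh0 (least_down hij (Nat.zero_le _) (by omega))
    refine ⟨hi, hj, ?_⟩
    by_contra hcon
    push Not at hcon
    have h1 : Least a b (l + 1 - w) (h + 1 - y) := least_down hij (by omega) (by omega)
    have h2 : (l + 1 - w) • a + (h + 1 - y) • b = 0 • a + 0 • b := by
      have e1 : (l + 1 - w) • a + w • a = (l + 1) • a := by
        rw [← add_nsmul]; congr 1; omega
      have e2 : (h + 1 - y) • b + y • b = (h + 1) • b := by
        rw [← add_nsmul]; congr 1; omega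
      have : (l + 1 - w) • a + (h + 1 - y) • b + (w • a + y • b) = w • a + y • b := by
        calc (l + 1 - w) • a + (h + 1 - y) • b + (w • a + y • b)
            = ((l + 1 - w) • a + w • a) + ((h + 1 - y) • b + y • b) := by abel
          _ = (l + 1) • a + (h + 1) • b := by rw [e1, e2]
          _ = y • b + w • a := by rw [hy, hw]
          _ = _ := by abel
      simpa using this
    have := least_unique h1 (least_zero a b) h2
    omega
  have htile' : ∀ m i j : ℕ, i + j ≤ m → Tile (l + 1) (h + 1) w y i j → Least a b i j := by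
    intro m
    induction m with
    | zero =>
      intro i j hm _
      have e1 : i = 0 := by omega
      have e2 : j = 0 := by omega
      rw [e1, e2]
      exact least_zero a b
    | succ m ih =>
      intro i j hm hT
      obtain ⟨hT1, hT2, hT3⟩ := hT
      rcases i with _ | i
      · exact hh1 j (by omega)
      rcases j with _ | j
      · exact hl1 (i + 1) (by omega)
      by_contra hcon
      have h1 : Least a b i (j + 1) := ih i (j + 1) (by omega) ⟨by omega, by omega, by omega⟩
      have h2 : Least a b (i + 1) j := ih (i + 1) j (by omega) ⟨by omega, by omega, by omega⟩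
      have h3 := corner hrep hcon h1 h2
      rcases hT3 with h4 | h4
      · have h5 : (w + (i + 1)) • a + 0 • b = 0 • a + (h + 1 - (j + 1)) • b := by
          have e2 : (h + 1 - (j + 1)) • b + (j + 1) • b = (h + 1) • b := by
            rw [← add_nsmul]; congr 1; omega
          rw [add_nsmul, zero_nsmul, zero_nsmul, add_zero, zero_add, ← hw, ← e2]
          calc (h + 1 - (j + 1)) • b + (j + 1) • b + (i + 1) • a
              = (h + 1 - (j + 1)) • b + ((i + 1) • a + (j + 1) • b) := by abel
            _ = _ := by rw [h3, add_zero]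
        have := least_unique (hl1 _ (by omega)) (hh1 _ (by omega)) h5
        omega
      · have h5 : 0 • a + (y + (j + 1)) • b = (l + 1 - (i + 1)) • a + 0 • b := by
          have e2 : (l + 1 - (i + 1)) • a + (i + 1) • a = (l + 1) • a := by
            rw [← add_nsmul]; congr 1; omega
          rw [add_nsmul, zero_nsmul, zero_nsmul, add_zero, zero_add, ← hy, ← e2]
          calc (l + 1 - (i + 1)) • a + (i + 1) • a + (j + 1) • b
              = (l + 1 - (i + 1)) • a + ((i + 1) • a + (j + 1) • b) := by abel
            _ = _ := by rw [h3, add_zero]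
        have := least_unique (hh1 _ (by omega)) (hl1 _ (by omega)) h5
        omega
  -- the area
  have hcard : (tileSet (l + 1) (h + 1) w y).card = n := by
    have hinj : Set.InjOn (fun p : ℕ × ℕ => p.1 • a + p.2 • b)
        (tileSet (l + 1) (h + 1) w y : Set (ℕ × ℕ)) := by
      intro p hp q hq hpq
      rw [mem_coe, mem_tileSet] at hp hq
      have := least_unique (htile' _ _ _ le_rfl hp) (htile' _ _ _ le_rfl hq) hpq
      exact Prod.ext this.1 this.2
    have himg : (tileSet (l + 1) (h + 1) w y).image (fun p : ℕ × ℕ => p.1 • a + p.2 • b) =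
        univ := by
      rw [eq_univ_iff_forall]
      intro x
      obtain ⟨i, j, hij, hx⟩ := least_exists a b x (hrep x)
      rw [mem_image]
      exact ⟨(i, j), (mem_tileSet _).2 (htile i j hij), hx.symm⟩
    rw [← card_image_of_injOn hinj, himg, card_univ, ZMod.card]
  have hdet : (l + 1) * (h + 1) = n + w * y := by
    rw [← card_tileSet hwl.le hyh.le, hcard]
  refine ⟨l + 1, h + 1, w, y, hwl, hyh, hdet, ?_, ?_⟩
  · -- the lattice is primitive
    by_contra hcon
    set d := Nat.gcd (Nat.gcd (l + 1) (h + 1)) (Nat.gcd w y) with hd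
    have hdl : d ∣ l + 1 := (Nat.gcd_dvd_left _ _).trans (Nat.gcd_dvd_left _ _)
    have hdh : d ∣ h + 1 := (Nat.gcd_dvd_left _ _).trans (Nat.gcd_dvd_right _ _)
    have hdw : d ∣ w := (Nat.gcd_dvd_right _ _).trans (Nat.gcd_dvd_left _ _)
    have hdy : d ∣ y := (Nat.gcd_dvd_right _ _).trans (Nat.gcd_dvd_right _ _)
    have hdn : d ∣ n := by
      have h1 : d ∣ n + w * y := hdet ▸ (hdl.mul_right (h + 1))
      exact (Nat.dvd_add_left (hdw.mul_right y)).1 h1
    have hd0 : d ≠ 0 := by
      intro h0
      rw [h0] at hdl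
      have := Nat.eq_zero_of_zero_dvd hdl
      omega
    have hd1 : 1 < d := by omega
    have : Fact (1 < d) := ⟨hd1⟩
    let A : ZMod n × ZMod d × ZMod d := (a, 1, 0)
    let B : ZMod n × ZMod d × ZMod d := (b, 0, 1)
    have hz : ∀ m : ℕ, d ∣ m → (m : ZMod d) = 0 := fun m hm =>
      (ZMod.natCast_eq_zero_iff m d).2 hm
    have hA : (l + 1) • A = y • B := by
      apply Prod.ext
      · exact hy
      · apply Prod.ext
        · change (l + 1) • (1 : ZMod d) = y • (0 : ZMod d)
          rw [nsmul_one, nsmul_zero]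
          exact hz _ hdl
        · change (l + 1) • (0 : ZMod d) = y • (1 : ZMod d)
          rw [nsmul_one, nsmul_zero]
          exact (hz _ hdy).symm
    have hB : (h + 1) • B = w • A := by
      apply Prod.ext
      · exact hw
      · apply Prod.ext
        · change (h + 1) • (0 : ZMod d) = w • (1 : ZMod d)
          rw [nsmul_one, nsmul_zero]
          exact (hz _ hdw).symm
        · change (h + 1) • (1 : ZMod d) = w • (0 : ZMod d)
          rw [nsmul_one, nsmul_zero]
          exact hz _ hdh
    have hcongr : ∀ i j r t : ℕ, i • a + j • b = r • a + t • b →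
        (i : ZMod d) = r ∧ (j : ZMod d) = t := by
      intro i j r t hijrt
      obtain ⟨i', j', hT1, he1⟩ := reduce hn hwl.le hyh.le hdet hA hB i j
      obtain ⟨r', t', hT2, he2⟩ := reduce hn hwl.le hyh.le hdet hA hB r t
      have f1 : i • a + j • b = i' • a + j' • b := congrArg Prod.fst he1
      have f2 : r • a + t • b = r' • a + t' • b := congrArg Prod.fst he2
      have f3 := least_unique (htile' _ _ _ le_rfl hT1) (htile' _ _ _ le_rfl hT2)
        (by rw [← f1, ← f2, hijrt])
      rw [← f3.1, ← f3.2, ← he1] at he2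
      have g1 := congrArg (fun z : ZMod n × ZMod d × ZMod d => z.2.1) he2
      have g2 := congrArg (fun z : ZMod n × ZMod d × ZMod d => z.2.2) he2
      simp only [A, B, Prod.snd_add, Prod.fst_add, Prod.smul_mk, smul_zero, nsmul_one,
        add_zero, zero_add] at g1 g2
      exact ⟨g1.symm, g2.symm⟩
    have hval := hcongr b.val 0 0 a.val (by
      rw [zero_nsmul, zero_nsmul, add_zero, zero_add, nsmul_eq_mul, nsmul_eq_mul,
        ZMod.natCast_zmod_val, ZMod.natCast_zmod_val, mul_comm])
    obtain ⟨i, j, h1⟩ := hrep 1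
    have h2 := congrArg (ZMod.castHom hdn (ZMod d)) h1
    rw [map_one, map_add, map_nsmul, map_nsmul, ZMod.castHom_apply, ZMod.castHom_apply] at h2
    have h3 : (a.cast : ZMod d) = 0 := by
      rw [← ZMod.natCast_val, ← hval.2]
      simp
    have h4 : (b.cast : ZMod d) = 0 := by
      rw [← ZMod.natCast_val, hval.1]
      simp
    rw [h3, h4] at h2
    simp at h2
  · have h1 : Least a b l (h - y) := htile' _ _ _ le_rfl ⟨by omega, by omega, by omega⟩
    have h2 : Least a b (l - w) h := htile' _ _ _ le_rfl ⟨by omega, by omega, by omega⟩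
    have h3 := hsum _ _ h1
    have h4 := hsum _ _ h2
    have h5 : l + h ≤ s + w := by omega
    have h6 : l + h ≤ s + y := by omega
    have h7 : l + h ≤ s + min w y := by
      rcases min_choice w y with h8 | h8 <;> rw [h8] <;> assumption
    omega

/-- the criterion -/
theorem good_iff_lshape {n s : ℕ} (hn : 1 ≤ n) : Good n s ↔ LShape n s := by
  constructor
  · intro hg
    obtain ⟨l, h, w, y, hw, hy, h1, h2, h3⟩ := lshape_of_good hn hg
    exact ⟨l, h, w, y, hw.le, hy.le, h1, h2, h3⟩
  · exact good_of_lshape hn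

end Pool.Agent.Helper74.BS
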