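import Mathlib

set_option autoImplicit false

/-!
# The function `g(2, s)`
-/

namespace Pool.Agent.Helper74.BS

/-- `A` is an `s`-basis of `ZMod n`: every element is a combination of elements of `A` with
nonnegative integer coefficients of sum at most `s`. -/
def IsBasis (n s : ℕ) (A : Finset (ZMod n)) : Prop :=
  ∀ x : ZMod n, ∃ c : ZMod n → ℕ, ∑ a ∈ A, c a ≤ s ∧ x = ∑ a ∈ A, c a • a

/-- `φ(Z_n, [0, s])`, the least size of an `s`-basis of `ZMod n`. -/
noncomputable def phi (n s : ℕ) : ℕ :=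
  sInf {k | ∃ A : Finset (ZMod n), A.card = k ∧ IsBasis n s A}

/-- `g(2, s)`, the largest `N` such that `φ(Z_n, [0, s]) ≤ 2` for all positive `n ≤ N`. -/
noncomputable def g (s : ℕ) : ℕ :=
  sSup {N | ∀ n, 1 ≤ n → n ≤ N → phi n s ≤ 2}

end Pool.Agent.Helper74.BS
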