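import Pool.Agent.Helper74.BS.Crit2

/-!
# Good pairs for all moduli up to `s² / 3 - 3 s^(3/2)`
-/

set_option autoImplicit false

namespace Pool.Agent.Helper74.BS

open Finset

/-- an L-shape from integers -/
lemma lshape_int {n s : ℕ} {l h w y : ℤ} (hw0 : 0 ≤ w) (hy0 : 0 ≤ y) (hw : w ≤ l) (hy : y ≤ h)
    (hdet : l * h = n + w * y) (hg : h + w - l - y = 1) (h1 : l + h ≤ s + 2 + w)
    (h2 : l + h ≤ s + 2 + y) : LShape n s := by
  obtain ⟨w', rfl⟩ := Int.eq_ofNat_of_zero_le hw0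
  obtain ⟨y', rfl⟩ := Int.eq_ofNat_of_zero_le hy0
  obtain ⟨l', rfl⟩ := Int.eq_ofNat_of_zero_le (hw0.trans hw)
  obtain ⟨h', rfl⟩ := Int.eq_ofNat_of_zero_le (hy0.trans hy)
  refine ⟨l', h', w', y', by exact_mod_cast hw, by exact_mod_cast hy, by exact_mod_cast hdet,
    ?_, ?_⟩
  · set d := Nat.gcd (Nat.gcd l' h') (Nat.gcd w' y') with hd
    have hdl : (d : ℤ) ∣ l' := by
      exact_mod_cast (Nat.gcd_dvd_left _ _).trans (Nat.gcd_dvd_left l' h')
    have hdh : (d : ℤ) ∣ h' := by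
      exact_mod_cast (Nat.gcd_dvd_left _ _).trans (Nat.gcd_dvd_right l' h')
    have hdw : (d : ℤ) ∣ w' := by
      exact_mod_cast (Nat.gcd_dvd_right _ _).trans (Nat.gcd_dvd_left w' y')
    have hdy : (d : ℤ) ∣ y' := by
      exact_mod_cast (Nat.gcd_dvd_right _ _).trans (Nat.gcd_dvd_right w' y')
    have h3 : (d : ℤ) ∣ 1 := by
      rw [← hg]
      exact dvd_sub (dvd_sub (dvd_add hdh hdw) hdl) hdy
    have h4 : d ∣ 1 := by exact_mod_cast h3
    exact Nat.dvd_one.1 h4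
  · rcases min_choice w' y' with h3 | h3 <;> rw [h3] <;> omega

/-- the construction -/
lemma lower_core (n : ℕ) (hn : 12 ≤ n) : ∃ a z : ℕ, 3 * a ^ 2 ≤ n ∧ 3 * z ^ 2 ≤ a ∧
    ∀ s : ℕ, 3 * a + 9 * z + 6 ≤ s → LShape n s := by
  obtain ⟨a, ha⟩ : ∃ a, a = Nat.sqrt (n / 3) := ⟨_, rfl⟩
  have ha1 : a * a ≤ n / 3 := by rw [ha]; exact Nat.sqrt_le _
  have ha2 : n / 3 < (a + 1) * (a + 1) := by rw [ha]; exact Nat.lt_succ_sqrt _
  have ha3 : 3 * (a * a) ≤ n := by omega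
  have ha4 : n < 3 * ((a + 1) * (a + 1)) := by omega
  have ha5 : 2 ≤ a := by
    by_contra hcon
    push Not at hcon
    have : (a + 1) * (a + 1) ≤ 2 * 2 := Nat.mul_le_mul (by omega) (by omega)
    omega
  obtain ⟨rem, hrem⟩ : ∃ rem, n = 3 * (a * a) + rem := ⟨n - 3 * (a * a), by omega⟩
  have hrem1 : rem ≤ 6 * a + 2 := by
    rw [hrem] at ha4
    nlinarith
  obtain ⟨t, ht1, ht2⟩ : ∃ t, rem ≤ a * t ∧ a * t < rem + a := by
    refine ⟨(rem + (a - 1)) / a, ?_, ?_⟩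
    · have h1 := Nat.div_add_mod (rem + (a - 1)) a
      have h2 := Nat.mod_lt (rem + (a - 1)) (by omega : 0 < a)
      omega
    · have h1 := Nat.div_mul_le_self (rem + (a - 1)) a
      rw [mul_comm] at h1
      omega
  have ht : t ≤ 7 := by
    by_contra hcon
    push Not at hcon
    have : a * 8 ≤ a * t := Nat.mul_le_mul_left a hcon
    omega
  obtain ⟨r, hr⟩ : ∃ r, a * t = rem + r := ⟨a * t - rem, by omega⟩
  obtain ⟨z, hz⟩ : ∃ z, z = Nat.sqrt (r / 3) := ⟨_, rfl⟩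
  have hz1 : z * z ≤ r / 3 := by rw [hz]; exact Nat.sqrt_le _
  have hz2 : r / 3 < (z + 1) * (z + 1) := by rw [hz]; exact Nat.lt_succ_sqrt _
  have hz3 : 3 * (z * z) ≤ r := by omega
  have hz4 : r < 3 * ((z + 1) * (z + 1)) := by omega
  have hra : r < a := by omega
  have ht0 : z ≠ 0 → 1 ≤ t := by
    intro h0
    by_contra hcon
    have : t = 0 := by omega
    rw [this, mul_zero] at hr
    have h1 : r = 0 := by omega
    rw [h1] at hz3
    have : 0 < z * z := Nat.mul_pos (by omega) (by omega)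
    omega
  refine ⟨a, z, by rw [pow_two]; exact ha3, by rw [pow_two]; omega, fun s hs => ?_⟩
  -- integers
  have hn' : (n : ℤ) = 3 * (a * a) + rem := by exact_mod_cast hrem
  have hr' : (a : ℤ) * t = rem + r := by exact_mod_cast hr
  have hz3' : 3 * ((z : ℤ) * z) ≤ r := by exact_mod_cast hz3
  have hz4' : (r : ℤ) < 3 * ((z + 1) * (z + 1)) := by exact_mod_cast hz4
  have hra' : (r : ℤ) < a := by exact_mod_cast hra
  have ha5' : (2 : ℤ) ≤ a := by exact_mod_cast ha5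
  have ht' : (t : ℤ) ≤ 7 := by exact_mod_cast ht
  have ht0' : (0 : ℤ) ≤ t := by positivity
  have hz0' : (0 : ℤ) ≤ z := by positivity
  have hs' : 3 * (a : ℤ) + 9 * z + 6 ≤ s := by exact_mod_cast hs
  obtain ⟨x, hx⟩ : ∃ x : ℤ, x = -r + 3 * (z * z) + (t - 2) * z := ⟨_, rfl⟩
  have hzz : (z : ℤ) ≤ z * z := by nlinarith
  have htz : (0 : ℤ) ≤ t * z := mul_nonneg ht0' hz0'
  have htz7 : (t : ℤ) * z ≤ 7 * z := mul_le_mul_of_nonneg_right ht' hz0'
  apply lshape_int (l := 2 * a + x) (h := 2 * a + t + 2 * z - 1 - x) (w := a + x + z)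
    (y := a + t + 3 * z - 2 - x)
  · rw [hx]
    nlinarith
  · rw [hx]
    nlinarith
  · nlinarith
  · nlinarith
  · rw [hn', hx]
    have e : (rem : ℤ) = a * t - r := by linarith
    rw [e]
    ring
  · ring
  · rw [hx]
    nlinarith
  · rw [hx]
    nlinarith

/-- small moduli -/
lemma good_small {n s : ℕ} (hn : 1 ≤ n) (hns : n ≤ s + 1) : Good n s := by
  have : NeZero n := ⟨by omega⟩
  refine ⟨1, 0, fun x => ⟨x.val, 0, ?_, ?_⟩⟩
  · have := ZMod.val_lt x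
    omega
  · simp

/-- the lower bound -/
theorem good_lower {n s : ℕ} (hn : 1 ≤ n)
    (h : (n : ℝ) ≤ (s : ℝ) ^ 2 / 3 - 3 * s * Real.sqrt s) : Good n s := by
  rcases Nat.lt_or_ge (s + 1) n with h1 | h1
  swap
  · exact good_small hn h1
  obtain ⟨σ, hσ⟩ : ∃ σ, σ = Real.sqrt s := ⟨_, rfl⟩
  have hσ0 : 0 ≤ σ := by rw [hσ]; exact Real.sqrt_nonneg _
  have hσ2 : (s : ℝ) = σ ^ 2 := by
    rw [hσ, Real.sq_sqrt (by positivity)]
  rw [← hσ, hσ2] at h
  have hn1 : (1 : ℝ) ≤ n := by exact_mod_cast hn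
  have hσ9 : 9 < σ := by
    by_contra hcon
    push Not at hcon
    have h2 : (σ ^ 2) ^ 2 / 3 - 3 * σ ^ 2 * σ = σ ^ 3 * (σ - 9) / 3 := by ring
    rw [h2] at h
    have h3 : σ ^ 3 * (σ - 9) ≤ 0 := mul_nonpos_of_nonneg_of_nonpos (by positivity) (by linarith)
    linarith
  have hs : 81 < s := by
    have h2 : (81 : ℝ) < s := by rw [hσ2]; nlinarith
    exact_mod_cast h2
  obtain ⟨a, z, ha, hz, hL⟩ := lower_core n (by omega)
  have ha' : 3 * (a : ℝ) ^ 2 ≤ n := by exact_mod_cast ha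
  have hz' : 3 * (z : ℝ) ^ 2 ≤ a := by exact_mod_cast hz
  have ha0 : (0 : ℝ) ≤ a := by positivity
  have hz0 : (0 : ℝ) ≤ z := by positivity
  have b1 : 3 * (a : ℝ) ≤ σ ^ 2 - 9 / 2 * σ := by
    have h2 : (3 * (a : ℝ)) ^ 2 ≤ (σ ^ 2 - 9 / 2 * σ) ^ 2 := by nlinarith
    have h3 : 0 ≤ σ ^ 2 - 9 / 2 * σ := by nlinarith
    exact (abs_le_of_sq_le_sq' h2 h3).2
  have b2 : 3 * (z : ℝ) ≤ σ := by
    have h2 : (3 * (z : ℝ)) ^ 2 ≤ σ ^ 2 := by nlinarith
    exact (abs_le_of_sq_le_sq' h2 hσ0).2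
  apply good_of_lshape hn
  apply hL
  have h3 : 3 * (a : ℝ) + 9 * z + 6 ≤ s := by rw [hσ2]; linarith
  exact_mod_cast h3

end Pool.Agent.Helper74.BS
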