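import Mathlib

set_option autoImplicit false

/-!
# Primes congruent to `2` modulo `3`: a lower bound of the right order of magnitude
(elementary, by the method of Mertens)
-/

namespace Pool.Agent.Helper74.BS

open Finset ArithmeticFunction

/-- the nontrivial character modulo `3` -/
noncomputable def chi (n : ℕ) : ℝ := if n % 3 = 1 then 1 else if n % 3 = 2 then -1 else 0

theorem chi_mul (a b : ℕ) : chi (a * b) = chi a * chi b := by
  unfold chi
  rw [Nat.mul_mod]
  have ha : a % 3 < 3 := Nat.mod_lt _ (by norm_num)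
  have hb : b % 3 < 3 := Nat.mod_lt _ (by norm_num)
  generalize a % 3 = x at *
  generalize b % 3 = y at *
  interval_cases x <;> interval_cases y <;> norm_num

theorem abs_chi_le (n : ℕ) : |chi n| ≤ 1 := by
  unfold chi
  split_ifs <;> norm_num

/-- sums of a decreasing function against the character -/
theorem chi_alt (f : ℕ → ℝ) (k : ℕ) : ∀ m : ℕ, (∀ n, m ≤ n → f (n + 1) ≤ f n) →
    (∀ n, m ≤ n → 0 ≤ f n) →
    ((m % 3 = 1 → 0 ≤ ∑ n ∈ Ico m (m + k), chi n * f n ∧
        ∑ n ∈ Ico m (m + k), chi n * f n ≤ f m) ∧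
      (m % 3 = 2 → -f m ≤ ∑ n ∈ Ico m (m + k), chi n * f n ∧
        ∑ n ∈ Ico m (m + k), chi n * f n ≤ 0) ∧
      (m % 3 = 0 → 0 ≤ ∑ n ∈ Ico m (m + k), chi n * f n ∧
        ∑ n ∈ Ico m (m + k), chi n * f n ≤ f m)) := by
  induction k with
  | zero =>
    intro m _ h0
    have := h0 m le_rfl
    simp only [add_zero, Ico_self, sum_empty]
    refine ⟨fun _ => ⟨le_rfl, this⟩, fun _ => ⟨by linarith, le_rfl⟩, fun _ => ⟨le_rfl, this⟩⟩
  | succ k ih =>
    intro m hf h0
    have e : ∑ n ∈ Ico m (m + (k + 1)), chi n * f n =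
        chi m * f m + ∑ n ∈ Ico (m + 1) (m + 1 + k), chi n * f n := by
      rw [Finset.sum_eq_sum_Ico_succ_bot (by omega)]
      congr 3
      omega
    obtain ⟨i1, i2, i3⟩ := ih (m + 1) (fun n hn => hf n (by omega)) (fun n hn => h0 n (by omega))
    have g1 := hf m le_rfl
    have g2 := h0 m le_rfl
    rw [e]
    refine ⟨fun hm => ?_, fun hm => ?_, fun hm => ?_⟩
    · have hc : chi m = 1 := by unfold chi; rw [if_pos hm]
      obtain ⟨j1, j2⟩ := i2 (by omega)
      rw [hc]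
      constructor <;> linarith
    · have hc : chi m = -1 := by unfold chi; rw [if_neg (by omega), if_pos hm]
      obtain ⟨j1, j2⟩ := i3 (by omega)
      rw [hc]
      constructor <;> linarith
    · have hc : chi m = 0 := by unfold chi; rw [if_neg (by omega), if_neg (by omega)]
      obtain ⟨j1, j2⟩ := i1 (by omega)
      rw [hc]
      constructor <;> linarith

theorem chi_alt_abs (f : ℕ → ℝ) (m k : ℕ) (hf : ∀ n, m ≤ n → f (n + 1) ≤ f n)
    (h0 : ∀ n, m ≤ n → 0 ≤ f n) : |∑ n ∈ Ico m (m + k), chi n * f n| ≤ f m := by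
  obtain ⟨h1, h2, h3⟩ := chi_alt f k m hf h0
  have g := h0 m le_rfl
  have hm : m % 3 < 3 := Nat.mod_lt _ (by norm_num)
  rw [abs_le]
  rcases (by omega : m % 3 = 0 ∨ m % 3 = 1 ∨ m % 3 = 2) with h | h | h
  · obtain ⟨a, b⟩ := h3 h
    exact ⟨by linarith, b⟩
  · obtain ⟨a, b⟩ := h1 h
    exact ⟨by linarith, b⟩
  · obtain ⟨a, b⟩ := h2 h
    exact ⟨a, by linarith⟩

/-- partial sums of the L-series at one -/
noncomputable def Ls (M : ℕ) : ℝ := ∑ n ∈ Ioc 0 M, chi n * (1 / (n : ℝ))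

theorem Ioc_eq_Ico (M : ℕ) : Ioc 0 M = Ico 1 (M + 1) := by
  ext x
  simp only [mem_Ioc, mem_Ico]
  omega

theorem inv_anti (n : ℕ) (hn : 1 ≤ n) : 1 / ((n + 1 : ℕ) : ℝ) ≤ 1 / (n : ℝ) := by
  have : (0 : ℝ) < n := by exact_mod_cast hn
  push_cast
  exact one_div_le_one_div_of_le this (by linarith)

theorem Ls_sub {M M' : ℕ} (h : M ≤ M') : |Ls M' - Ls M| ≤ 1 / ((M + 1 : ℕ) : ℝ) := by
  have e : Ls M' - Ls M = ∑ n ∈ Ico (M + 1) (M + 1 + (M' - M)), chi n * (1 / (n : ℝ)) := by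
    unfold Ls
    have e1 : M + 1 + (M' - M) = M' + 1 := by omega
    rw [Ioc_eq_Ico, Ioc_eq_Ico, e1,
      ← Finset.sum_Ico_consecutive (fun n => chi n * (1 / (n : ℝ))) (by omega : 1 ≤ M + 1)
        (by omega : M + 1 ≤ M' + 1)]
    ring
  rw [e]
  exact chi_alt_abs (fun n => 1 / (n : ℝ)) (M + 1) (M' - M)
    (fun n hn => inv_anti n (by omega)) (fun n _ => by positivity)

theorem Ls_ge {M : ℕ} (hM : 1 ≤ M) : 1 / 2 ≤ Ls M := by
  unfold Ls
  rw [Ioc_eq_Ico]
  have c1 : chi 1 = 1 := by unfold chi; norm_num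
  have c2 : chi 2 = -1 := by unfold chi; norm_num
  rcases hM.eq_or_lt with rfl | h2
  · rw [Finset.sum_eq_sum_Ico_succ_bot (by norm_num), c1]
    norm_num
  · rw [Finset.sum_eq_sum_Ico_succ_bot (by omega), Finset.sum_eq_sum_Ico_succ_bot (by omega)]
    have h3 := (chi_alt (fun n => 1 / (n : ℝ)) (M - 2) 3 (fun n hn => inv_anti n (by omega))
      (fun n _ => by positivity)).2.2 (by norm_num)
    have e : 3 + (M - 2) = M + 1 := by omega
    rw [e] at h3
    norm_num [c1, c2] at h3 ⊢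
    linarith [h3.1]

/-- the twisted sum of `log n / n` -/
theorem log_sum_le (N : ℕ) : |∑ n ∈ Ioc 0 N, chi n * (Real.log n / n)| ≤ 2 := by
  rw [Ioc_eq_Ico]
  rcases (by omega : N = 0 ∨ N = 1 ∨ 2 ≤ N) with rfl | rfl | h2
  · simp
  · rw [Finset.sum_eq_sum_Ico_succ_bot (by norm_num)]
    simp
  · rw [Finset.sum_eq_sum_Ico_succ_bot (by omega), Finset.sum_eq_sum_Ico_succ_bot (by omega)]
    have c2 : chi 2 = -1 := by unfold chi; norm_num
    have hf : ∀ n : ℕ, 3 ≤ n → Real.log ((n + 1 : ℕ) : ℝ) / ((n + 1 : ℕ) : ℝ)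
        ≤ Real.log n / n := by
      intro n hn
      have h3 : (3 : ℝ) ≤ n := by exact_mod_cast hn
      have he : Real.exp 1 < 3 := lt_trans Real.exp_one_lt_d9 (by norm_num)
      apply Real.log_div_self_antitoneOn
      · exact he.le.trans h3
      · change Real.exp 1 ≤ ((n + 1 : ℕ) : ℝ)
        push_cast
        linarith
      · push_cast
        linarith
    have h0 : ∀ n : ℕ, 3 ≤ n → 0 ≤ Real.log (n : ℝ) / n := by
      intro n _
      exact div_nonneg (Real.log_natCast_nonneg n) (Nat.cast_nonneg n)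
    have h3 := chi_alt_abs (fun n => Real.log (n : ℝ) / n) 3 (N - 2) hf h0
    have e : 3 + (N - 2) = N + 1 := by omega
    rw [e] at h3
    have l2 := Real.log_two_lt_d9
    have l2' := Real.log_two_gt_d9
    have l3 : Real.log 3 ≤ 2 := by
      have := Real.log_le_sub_one_of_pos (show (0 : ℝ) < 3 by norm_num)
      linarith
    norm_num [c2] at h3 ⊢
    rw [abs_le] at h3 ⊢
    constructor <;> linarith [h3.1, h3.2]

/-- the twisted sum of `Λ d / d` -/
noncomputable def Tw (N : ℕ) : ℝ := ∑ d ∈ Ioc 0 N, chi d * (vonMangoldt d / d)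

theorem tw_ident (N : ℕ) : ∑ n ∈ Ioc 0 N, chi n * (Real.log n / n) =
    ∑ d ∈ Ioc 0 N, chi d * (vonMangoldt d / d) * Ls (N / d) := by
  let F : ArithmeticFunction ℝ := ⟨fun n => chi n * (vonMangoldt n / n), by simp⟩
  let G : ArithmeticFunction ℝ := ⟨fun n => chi n * (1 / (n : ℝ)), by simp⟩
  have h := sum_Ioc_mul_eq_sum_sum F G N
  have e : ∀ n ∈ Ioc 0 N, (F * G) n = chi n * (Real.log n / n) := by
    intro n hn
    have hn0 : 0 < n := (mem_Ioc.1 hn).1
    rw [ArithmeticFunction.mul_apply]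
    have e1 : ∀ x ∈ n.divisorsAntidiagonal, F x.1 * G x.2 = chi n / n * vonMangoldt x.1 := by
      intro x hx
      have hx1 := (Nat.mem_divisorsAntidiagonal.1 hx).1
      have hx0 : x.1 ≠ 0 ∧ x.2 ≠ 0 := by
        rw [← hx1] at hn0
        exact ⟨(Nat.pos_of_mul_pos_right hn0).ne', (Nat.pos_of_mul_pos_left hn0).ne'⟩
      change chi x.1 * (vonMangoldt x.1 / (x.1 : ℝ)) * (chi x.2 * (1 / (x.2 : ℝ))) = _
      rw [← hx1, chi_mul]
      push_cast
      have a1 : (x.1 : ℝ) ≠ 0 := by exact_mod_cast hx0.1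
      have a2 : (x.2 : ℝ) ≠ 0 := by exact_mod_cast hx0.2
      field_simp
    rw [Finset.sum_congr rfl e1, ← Finset.mul_sum,
      Nat.sum_divisorsAntidiagonal (fun i _ => vonMangoldt i), vonMangoldt_sum]
    ring
  rw [← Finset.sum_congr rfl e, h]
  rfl

theorem psi_nat_le (N : ℕ) : ∑ d ∈ Ioc 0 N, vonMangoldt d ≤ 6 * N := by
  have h := Chebyshev.psi_le_const_mul_self (x := (N : ℝ)) (Nat.cast_nonneg N)
  unfold Chebyshev.psi at h
  rw [Nat.floor_natCast] at h
  refine h.trans (mul_le_mul_of_nonneg_right ?_ (Nat.cast_nonneg N))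
  have l4 : Real.log 4 = 2 * Real.log 2 := by
    rw [show (4 : ℝ) = 2 ^ 2 by norm_num, Real.log_pow]; norm_num
  have := Real.log_two_lt_d9
  rw [l4]
  linarith

theorem tw_le {N : ℕ} (hN : 1 ≤ N) : |Tw N| ≤ 16 := by
  have hN0 : (0 : ℝ) < N := by exact_mod_cast hN
  have h1 : |∑ n ∈ Ioc 0 N, chi n * (Real.log n / n) - Tw N * Ls N| ≤ 6 := by
    rw [tw_ident]
    unfold Tw
    rw [Finset.sum_mul, ← Finset.sum_sub_distrib]
    refine (Finset.abs_sum_le_sum_abs _ _).trans ?_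
    have e : ∀ d ∈ Ioc 0 N, |chi d * (vonMangoldt d / d) * Ls (N / d) -
        chi d * (vonMangoldt d / d) * Ls N| ≤ vonMangoldt d / N := by
      intro d hd
      have hd0 : 0 < d := (mem_Ioc.1 hd).1
      have hd1 : (0 : ℝ) < d := by exact_mod_cast hd0
      rw [← mul_sub, abs_mul, abs_mul]
      have a1 := abs_chi_le d
      have a2 : |vonMangoldt d / (d : ℝ)| = vonMangoldt d / d :=
        abs_of_nonneg (div_nonneg vonMangoldt_nonneg hd1.le)
      have a3 : |Ls (N / d) - Ls N| ≤ d / N := by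
        rw [abs_sub_comm]
        refine (Ls_sub (Nat.div_le_self N d)).trans ?_
        rw [div_le_div_iff₀ (by positivity) hN0, one_mul]
        have : N < d * (N / d + 1) := Nat.lt_mul_div_succ N hd0
        exact_mod_cast this.le
      rw [a2]
      have a4 : 0 ≤ vonMangoldt d / (d : ℝ) := div_nonneg vonMangoldt_nonneg hd1.le
      calc |chi d| * (vonMangoldt d / d) * |Ls (N / d) - Ls N|
          ≤ 1 * (vonMangoldt d / d) * (d / N) := by
            apply mul_le_mul _ a3 (abs_nonneg _) (by positivity)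
            exact mul_le_mul_of_nonneg_right a1 a4
        _ = vonMangoldt d / N := by field_simp
    refine (Finset.sum_le_sum e).trans ?_
    rw [← Finset.sum_div, div_le_iff₀ hN0]
    exact psi_nat_le N
  have h2 := log_sum_le N
  have h3 := Ls_ge hN
  have h4 : |Tw N * Ls N| ≤ 8 := by
    rw [abs_le] at h1 h2 ⊢
    constructor <;> linarith [h1.1, h1.2, h2.1, h2.2]
  rw [abs_mul, abs_of_nonneg (by linarith : 0 ≤ Ls N)] at h4
  nlinarith [abs_nonneg (Tw N)]

/-- the sum of `Λ d / d` -/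
noncomputable def Al (N : ℕ) : ℝ := ∑ d ∈ Ioc 0 N, vonMangoldt d / d

theorem log_fac (N : ℕ) : ∑ d ∈ Ioc 0 N, vonMangoldt d * ((N / d : ℕ) : ℝ) =
    Real.log (N.factorial) := by
  have h := sum_Ioc_mul_zeta_eq_sum (vonMangoldt) N
  rw [← h, vonMangoldt_mul_zeta]
  induction N with
  | zero => simp
  | succ n ih =>
    rw [Finset.sum_Ioc_succ_top (by omega), ih, Nat.factorial_succ]
    · rw [log_apply]
      push_cast
      rw [Real.log_mul (by positivity) (by positivity)]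
      ring
    · exact sum_Ioc_mul_zeta_eq_sum (vonMangoldt) n

theorem al_ge {N : ℕ} (hN : 1 ≤ N) : Real.log N - 1 ≤ Al N := by
  have hN0 : (0 : ℝ) < N := by exact_mod_cast hN
  have h1 := Stirling.le_log_factorial_stirling (n := N) (by omega)
  have h2 : Real.log (N.factorial) ≤ N * Al N := by
    rw [← log_fac]
    unfold Al
    rw [Finset.mul_sum]
    refine Finset.sum_le_sum fun d hd => ?_
    have hd0 : (0 : ℝ) < d := by exact_mod_cast (mem_Ioc.1 hd).1
    have h3 : ((N / d : ℕ) : ℝ) ≤ N / d := Nat.cast_div_le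
    calc vonMangoldt d * ((N / d : ℕ) : ℝ) ≤ vonMangoldt d * (N / d) :=
          mul_le_mul_of_nonneg_left h3 vonMangoldt_nonneg
      _ = N * (vonMangoldt d / d) := by ring
  have h4 : 0 ≤ Real.log N := Real.log_natCast_nonneg N
  have h5 : 0 ≤ Real.log (2 * Real.pi) :=
    Real.log_nonneg (by nlinarith [Real.pi_gt_three])
  have h6 : (N : ℝ) * (Real.log N - 1) ≤ N * Al N := by nlinarith
  exact le_of_mul_le_mul_left h6 hN0

theorem al_le {N : ℕ} (hN : 1 ≤ N) : Al N ≤ Real.log N + 6 := by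
  have hN0 : (0 : ℝ) < N := by exact_mod_cast hN
  have h1 : Real.log (N.factorial) ≤ N * Real.log N := by
    rw [← Real.log_pow]
    apply Real.log_le_log (by exact_mod_cast Nat.factorial_pos N)
    exact_mod_cast Nat.factorial_le_pow N
  have h2 : N * Al N - 6 * N ≤ Real.log (N.factorial) := by
    rw [← log_fac]
    have h3 := psi_nat_le N
    have h4 : N * Al N - ∑ d ∈ Ioc 0 N, vonMangoldt d ≤
        ∑ d ∈ Ioc 0 N, vonMangoldt d * ((N / d : ℕ) : ℝ) := by
      unfold Al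
      rw [Finset.mul_sum, ← Finset.sum_sub_distrib]
      refine Finset.sum_le_sum fun d hd => ?_
      have hd0 : (0 : ℝ) < d := by exact_mod_cast (mem_Ioc.1 hd).1
      have h5 : (N : ℝ) / d - 1 ≤ ((N / d : ℕ) : ℝ) := by
        have h6 : N < d * (N / d + 1) := Nat.lt_mul_div_succ N (mem_Ioc.1 hd).1
        have h7 : (N : ℝ) < d * (((N / d : ℕ) : ℝ) + 1) := by exact_mod_cast h6
        rw [sub_le_iff_le_add, div_le_iff₀ hd0]
        linarith
      calc N * (vonMangoldt d / d) - vonMangoldt d = vonMangoldt d * (N / d - 1) := by ring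
        _ ≤ _ := mul_le_mul_of_nonneg_left h5 vonMangoldt_nonneg
    linarith
  have h6 : (N : ℝ) * Al N ≤ N * (Real.log N + 6) := by linarith
  exact le_of_mul_le_mul_left h6 hN0

/-- the contribution of the powers of three -/
theorem three_le (N : ℕ) : ∑ d ∈ Ioc 0 N with d % 3 = 0, vonMangoldt d / d ≤ 3 := by
  classical
  have h1 : ∑ d ∈ Ioc 0 N with d % 3 = 0, vonMangoldt d / d ≤
      ∑ k ∈ range (N + 1), Real.log 3 * (1 / 3 : ℝ) ^ k := by
    have e1 : ∑ d ∈ Ioc 0 N with d % 3 = 0, vonMangoldt d / d =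
        ∑ d ∈ (Ioc 0 N).filter (fun d => d % 3 = 0 ∧ vonMangoldt d ≠ 0), vonMangoldt d / d := by
      symm
      apply Finset.sum_subset
      · intro d hd
        rw [mem_filter] at hd ⊢
        exact ⟨hd.1, hd.2.1⟩
      · intro d hd hd2
        rw [mem_filter] at hd hd2
        have : vonMangoldt d = 0 := by
          by_contra h
          exact hd2 ⟨hd.1, hd.2, h⟩
        rw [this, zero_div]
    rw [e1]
    have hpow : ∀ d ∈ (Ioc 0 N).filter (fun d => d % 3 = 0 ∧ vonMangoldt d ≠ 0),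
        ∃ k, k ≤ N ∧ d = 3 ^ k ∧ vonMangoldt d = Real.log 3 := by
      intro d hd
      rw [mem_filter, mem_Ioc] at hd
      obtain ⟨⟨_, hdN⟩, h3, hv⟩ := hd
      rw [vonMangoldt_ne_zero_iff] at hv
      obtain ⟨p, k, hp, hk, rfl⟩ := (isPrimePow_nat_iff _).1 hv
      have hp3 : p = 3 := by
        have h4 : 3 ∣ p ^ k := Nat.dvd_of_mod_eq_zero h3
        have h5 := (Nat.prime_three.dvd_of_dvd_pow h4)
        exact ((Nat.prime_dvd_prime_iff_eq Nat.prime_three hp).1 h5).symm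
      subst hp3
      refine ⟨k, ?_, rfl, ?_⟩
      · exact (Nat.lt_pow_self (by norm_num : 1 < 3)).le.trans hdN
      · rw [vonMangoldt_apply_pow hk.ne', vonMangoldt_apply_prime Nat.prime_three]
        norm_num
    have hsub : (Ioc 0 N).filter (fun d => d % 3 = 0 ∧ vonMangoldt d ≠ 0) ⊆
        (range (N + 1)).image (fun k => 3 ^ k) := by
      intro d hd
      obtain ⟨k, hk, hd2, _⟩ := hpow d hd
      exact mem_image.2 ⟨k, mem_range.2 (by omega), hd2.symm⟩
    calc ∑ d ∈ (Ioc 0 N).filter (fun d => d % 3 = 0 ∧ vonMangoldt d ≠ 0), vonMangoldt d / d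
        = ∑ d ∈ (Ioc 0 N).filter (fun d => d % 3 = 0 ∧ vonMangoldt d ≠ 0),
            Real.log 3 * (1 / (d : ℝ)) := by
          refine Finset.sum_congr rfl fun d hd => ?_
          obtain ⟨k, _, _, hv⟩ := hpow d hd
          rw [hv]
          ring
      _ ≤ ∑ d ∈ (range (N + 1)).image (fun k => (3 : ℕ) ^ k), Real.log 3 * (1 / (d : ℝ)) :=
          Finset.sum_le_sum_of_subset_of_nonneg hsub fun d _ _ =>
            mul_nonneg (Real.log_nonneg (by norm_num : (1 : ℝ) ≤ 3))
              (one_div_nonneg.2 (Nat.cast_nonneg d))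
      _ = ∑ k ∈ range (N + 1), Real.log 3 * (1 / 3 : ℝ) ^ k := by
          rw [Finset.sum_image]
          · refine Finset.sum_congr rfl fun k _ => ?_
            push_cast
            rw [one_div_pow]
          · intro a _ b _ hab
            exact Nat.pow_right_injective (by norm_num : 2 ≤ 3) hab
  refine h1.trans ?_
  rw [← Finset.mul_sum]
  have h2 : ∀ n : ℕ, ∑ k ∈ range n, (1 / 3 : ℝ) ^ k = 3 / 2 - 3 / 2 * (1 / 3) ^ n := by
    intro n
    induction n with
    | zero => norm_num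
    | succ n ih =>
      rw [Finset.sum_range_succ, ih, pow_succ]
      ring
  have l3 : Real.log 3 ≤ 2 := by
    have := Real.log_le_sub_one_of_pos (show (0 : ℝ) < 3 by norm_num)
    linarith
  rw [h2]
  have h4 : (0 : ℝ) < (1 / 3) ^ (N + 1) := by positivity
  have l3' : 0 ≤ Real.log 3 := Real.log_nonneg (by norm_num)
  nlinarith

/-- the sum of `Λ d / d` over the residue class `2` -/
noncomputable def A2 (N : ℕ) : ℝ := ∑ d ∈ Ioc 0 N with d % 3 = 2, vonMangoldt d / d

theorem A2_eq (N : ℕ) : 2 * A2 N =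
    Al N - (∑ d ∈ Ioc 0 N with d % 3 = 0, vonMangoldt d / d) - Tw N := by
  unfold A2 Al Tw
  rw [Finset.sum_filter, Finset.sum_filter, Finset.mul_sum, ← Finset.sum_sub_distrib,
    ← Finset.sum_sub_distrib]
  refine Finset.sum_congr rfl fun d _ => ?_
  unfold chi
  have hm : d % 3 < 3 := Nat.mod_lt _ (by norm_num)
  rcases (by omega : d % 3 = 0 ∨ d % 3 = 1 ∨ d % 3 = 2) with h | h | h
  · simp [h]
  · simp [h]
  · simp [h]
    ring

theorem A2_ge {N : ℕ} (hN : 1 ≤ N) : Real.log N / 2 - 10 ≤ A2 N := by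
  have h1 := A2_eq N
  have h2 := al_ge hN
  have h3 := three_le N
  have h4 := (abs_le.1 (tw_le hN)).2
  linarith

theorem A2_le {N : ℕ} (hN : 1 ≤ N) : A2 N ≤ Real.log N / 2 + 11 := by
  have h1 := A2_eq N
  have h2 := al_le hN
  have h3 : 0 ≤ ∑ d ∈ Ioc 0 N with d % 3 = 0, vonMangoldt d / d :=
    Finset.sum_nonneg fun d _ => div_nonneg vonMangoldt_nonneg (Nat.cast_nonneg d)
  have h4 := (abs_le.1 (tw_le hN)).1
  linarith

/-- Chebyshev type lower bound in the residue class -/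
theorem sum_two_ge : ∃ K : ℕ, 1 ≤ K ∧ ∀ N : ℕ, K ≤ N →
    (N : ℝ) / K ≤ ∑ d ∈ Ioc 0 N with d % 3 = 2, vonMangoldt d := by
  obtain ⟨K, hK⟩ := exists_nat_ge (Real.exp 44)
  have hK0 : (0 : ℝ) < K := lt_of_lt_of_le (Real.exp_pos _) hK
  have hK1 : 1 ≤ K := by exact_mod_cast hK0
  refine ⟨K, hK1, fun N hN => ?_⟩
  have hN1 : 1 ≤ N := hK1.trans hN
  have hN0 : (0 : ℝ) < N := by exact_mod_cast hN1
  have hM1 : 1 ≤ N / K := (Nat.one_le_div_iff (by omega)).2 hN
  have hM0 : (0 : ℝ) < ((N / K : ℕ) : ℝ) := by exact_mod_cast hM1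
  have hMN : ((N / K : ℕ) : ℝ) ≤ N / K := Nat.cast_div_le
  have hlog : Real.log ((N / K : ℕ) : ℝ) ≤ Real.log N - 44 := by
    have h1 := Real.log_le_log hM0 hMN
    rw [Real.log_div hN0.ne' hK0.ne'] at h1
    have h2 : 44 ≤ Real.log K := (Real.le_log_iff_exp_le hK0).2 hK
    linarith
  have hdiff : 1 ≤ A2 N - A2 (N / K) := by
    have h1 := A2_ge hN1
    have h2 := A2_le hM1
    linarith
  have hle : N / K ≤ N := Nat.div_le_self _ _
  have hsub : A2 N - A2 (N / K) = ∑ d ∈ Ioc (N / K) N with d % 3 = 2, vonMangoldt d / d := by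
    unfold A2
    rw [Finset.sum_filter, Finset.sum_filter, Finset.sum_filter]
    rw [← Finset.sum_Ioc_consecutive _ (Nat.zero_le (N / K)) hle]
    ring
  have h5 : A2 N - A2 (N / K) ≤
      ∑ d ∈ Ioc (N / K) N with d % 3 = 2, vonMangoldt d * (K / N) := by
    rw [hsub]
    refine Finset.sum_le_sum fun d hd => ?_
    have hd1 := (mem_Ioc.1 (mem_filter.1 hd).1).1
    have hd2 : N < K * d := by
      have h6 : N < K * (N / K + 1) := Nat.lt_mul_div_succ N (by omega)
      exact lt_of_lt_of_le h6 (Nat.mul_le_mul_left K hd1)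
    have hd3 : (N : ℝ) < K * d := by exact_mod_cast hd2
    have hd0 : (0 : ℝ) < d := by
      have : 0 < d := lt_of_le_of_lt (Nat.zero_le _) hd1
      exact_mod_cast this
    rw [div_eq_mul_inv]
    refine mul_le_mul_of_nonneg_left ?_ vonMangoldt_nonneg
    rw [inv_eq_one_div, div_le_div_iff₀ hd0 hN0]
    linarith
  rw [← Finset.sum_mul] at h5
  have h6 : ∑ d ∈ Ioc (N / K) N with d % 3 = 2, vonMangoldt d ≤
      ∑ d ∈ Ioc 0 N with d % 3 = 2, vonMangoldt d := by
    refine Finset.sum_le_sum_of_subset_of_nonneg ?_ fun _ _ _ => vonMangoldt_nonneg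
    intro d hd
    rw [mem_filter, mem_Ioc] at hd ⊢
    exact ⟨⟨by omega, hd.1.2⟩, hd.2⟩
  have h7 : 1 ≤ (∑ d ∈ Ioc 0 N with d % 3 = 2, vonMangoldt d) * (K / N) :=
    hdiff.trans (h5.trans (mul_le_mul_of_nonneg_right h6 (by positivity)))
  rw [div_le_iff₀ hK0]
  rw [← mul_div_assoc, le_div_iff₀ hN0, one_mul] at h7
  exact h7

/-- there are at least `c N / log N` primes up to `N` which are `2` modulo `3` -/
theorem primes_two_mod_three : ∃ c : ℝ, 0 < c ∧ ∃ N₀ : ℕ, ∀ N : ℕ, N₀ ≤ N →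
    c * N ≤ ((Ioc 0 N).filter (fun p => p.Prime ∧ p % 3 = 2)).card * Real.log N := by
  obtain ⟨K, hK1, hK⟩ := sum_two_ge
  have hK0 : (0 : ℝ) < K := by exact_mod_cast hK1
  -- log N is small compared with the square root
  have hlim : ∃ N₁ : ℕ, ∀ N : ℕ, N₁ ≤ N → 2 * √(N : ℝ) * Real.log N ≤ N / (2 * K) := by
    have h1 := isLittleO_log_rpow_atTop (show (0 : ℝ) < 1 / 2 by norm_num)
    have h2 := h1.def (show (0 : ℝ) < 1 / (4 * K) by positivity)
    have h3 := tendsto_natCast_atTop_atTop.eventually h2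
    obtain ⟨N₁, hN₁⟩ := Filter.eventually_atTop.1 h3
    refine ⟨N₁, fun N hN => ?_⟩
    have h4 := hN₁ N hN
    rw [Real.norm_eq_abs, Real.norm_eq_abs, ← Real.sqrt_eq_rpow,
      abs_of_nonneg (Real.log_natCast_nonneg N), abs_of_nonneg (Real.sqrt_nonneg _)] at h4
    have h5 := Real.mul_self_sqrt (Nat.cast_nonneg N : (0 : ℝ) ≤ N)
    calc 2 * √(N : ℝ) * Real.log N ≤ 2 * √(N : ℝ) * (1 / (4 * K) * √(N : ℝ)) :=
          mul_le_mul_of_nonneg_left h4 (by positivity)
      _ = (√(N : ℝ) * √(N : ℝ)) / (2 * K) := by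
          ring
      _ = N / (2 * K) := by rw [h5]
  obtain ⟨N₁, hN₁⟩ := hlim
  refine ⟨1 / (2 * K), by positivity, max K N₁, fun N hN => ?_⟩
  have hNK : K ≤ N := (le_max_left _ _).trans hN
  have h1 := hK N hNK
  have h2 := hN₁ N ((le_max_right _ _).trans hN)
  have hN1 : 1 ≤ N := hK1.trans hNK
  have h3 := Chebyshev.psi_sub_theta_le (x := (N : ℝ)) (by exact_mod_cast hN1)
  rw [Chebyshev.psi_sub_theta_eq_sum_not_prime, Nat.floor_natCast] at h3
  have h4 : ∑ d ∈ Ioc 0 N with d % 3 = 2, vonMangoldt d ≤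
      (∑ d ∈ (Ioc 0 N).filter (fun p => p.Prime ∧ p % 3 = 2), Real.log N) +
        ∑ n ∈ Ioc 0 N with ¬ n.Prime, vonMangoldt n := by
    rw [Finset.sum_filter, Finset.sum_filter, Finset.sum_filter, ← Finset.sum_add_distrib]
    refine Finset.sum_le_sum fun d hd => ?_
    have hd1 := mem_Ioc.1 hd
    by_cases hp : d.Prime
    · by_cases h3 : d % 3 = 2
      · rw [if_pos h3, if_pos ⟨hp, h3⟩, if_neg (by simpa using hp), add_zero,
          vonMangoldt_apply_prime hp]
        apply Real.log_le_log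
        · exact_mod_cast hp.pos
        · exact_mod_cast hd1.2
      · rw [if_neg h3, if_neg (fun h => h3 h.2), if_neg (by simpa using hp), add_zero]
    · have hv : 0 ≤ vonMangoldt d := vonMangoldt_nonneg
      rw [if_neg (fun h : d.Prime ∧ d % 3 = 2 => hp h.1), if_pos hp, zero_add]
      split_ifs
      · exact le_rfl
      · exact hv
  rw [Finset.sum_const, nsmul_eq_mul] at h4
  have h5 : (N : ℝ) / K = N / (2 * K) + N / (2 * K) := by
    field_simp
    ring
  have h6 : 1 / (2 * (K : ℝ)) * N = N / (2 * K) := by ring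
  rw [h6]
  linarith

end Pool.Agent.Helper74.BS
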