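import Pool.Agent.Helper74.BS.Upper
import Pool.Agent.Helper74.BS.PM3

set_option autoImplicit false

/-!
# The rate in the upper bound
-/

namespace Pool.Agent.Helper74.BS

open Finset Filter

/-- the primes which are `2` modulo `3`, other than `2`, up to `y` -/
noncomputable def TS (y : ℕ) : Finset ℕ :=
  ((Ioc 0 y).filter (fun p => p.Prime ∧ p % 3 = 2)).erase 2

theorem TS_mem {y p : ℕ} (h : p ∈ TS y) : p.Prime ∧ p % 3 = 2 ∧ p ≠ 2 := by
  unfold TS at h
  rw [mem_erase, mem_filter] at h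
  exact ⟨h.2.2.1, h.2.2.2, h.1⟩

theorem TS_card (y : ℕ) :
    ((Ioc 0 y).filter (fun p => p.Prime ∧ p % 3 = 2)).card ≤ (TS y).card + 1 := by
  unfold TS
  have := Finset.pred_card_le_card_erase (s := (Ioc 0 y).filter (fun p => p.Prime ∧ p % 3 = 2))
    (a := 2)
  omega

theorem TS_card_le (y : ℕ) : (TS y).card ≤ y := by
  unfold TS
  refine (Finset.card_erase_le).trans ((Finset.card_filter_le _ _).trans ?_)
  simp

theorem TS_prod (y : ℕ) : ∏ p ∈ TS y, p ^ 2 ≤ 16 ^ y := by
  have h1 : ∏ p ∈ TS y, p ≤ 4 ^ y := by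
    refine le_trans ?_ (primorial_le_four_pow y)
    unfold primorial
    apply Finset.prod_le_prod_of_subset_of_one_le'
    · intro p hp
      unfold TS at hp
      rw [mem_erase, mem_filter, mem_Ioc] at hp
      rw [mem_filter, mem_range]
      exact ⟨by omega, hp.2.2.1⟩
    · intro p hp _
      rw [mem_filter] at hp
      exact hp.2.pos
  rw [Finset.prod_pow]
  calc (∏ p ∈ TS y, p) ^ 2 ≤ (4 ^ y) ^ 2 := Nat.pow_le_pow_left h1 2
    _ = 16 ^ y := by rw [← pow_mul, mul_comm, pow_mul]; norm_num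

theorem log_le_two_sqrt {x : ℝ} (hx : 0 < x) : Real.log x ≤ 2 * √x := by
  have h1 : 0 < √x := Real.sqrt_pos.2 hx
  have h2 := Real.log_le_sub_one_of_pos h1
  have h3 : Real.log x = 2 * Real.log (√x) := by
    conv_lhs => rw [← Real.sq_sqrt hx.le]
    rw [Real.log_pow]
    norm_num
  rw [h3]
  linarith

theorem tendsto_rate : Tendsto (fun s : ℕ => Real.log s / Real.log (Real.log s)) atTop atTop := by
  have h1 : Tendsto (fun s : ℕ => √(Real.log s) / 2) atTop atTop :=
    (Real.tendsto_sqrt_atTop.comp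
      (Real.tendsto_log_atTop.comp tendsto_natCast_atTop_atTop)).atTop_div_const (by norm_num)
  refine tendsto_atTop_mono' atTop ?_ h1
  have h2 : Tendsto (fun s : ℕ => Real.log s) atTop atTop :=
    Real.tendsto_log_atTop.comp tendsto_natCast_atTop_atTop
  filter_upwards [h2.eventually_gt_atTop 1] with s hs
  have h3 : 0 < Real.log (Real.log s) := Real.log_pos hs
  have h4 := log_le_two_sqrt (by linarith : 0 < Real.log (s : ℝ))
  rw [le_div_iff₀ h3]
  have h5 := Real.mul_self_sqrt (by linarith : 0 ≤ Real.log (s : ℝ))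
  nlinarith [Real.sqrt_nonneg (Real.log (s : ℝ))]

theorem exists_bad_rate : ∃ c : ℝ, 0 < c ∧ ∃ s₀ : ℕ, ∀ s : ℕ, s₀ ≤ s →
    ∃ n : ℕ, 1 ≤ n ∧ (n : ℝ) ≤ (s : ℝ) ^ 2 / 3 - c * s * √(Real.log s / Real.log (Real.log s)) ∧
      ¬ Good n s := by
  obtain ⟨c, hc, N₀, hN₀⟩ := primes_two_mod_three
  refine ⟨√(c / 24) / 6, by positivity, ?_⟩
  have hlog : Tendsto (fun s : ℕ => Real.log s) atTop atTop :=
    Real.tendsto_log_atTop.comp tendsto_natCast_atTop_atTop
  have ev : ∀ᶠ s : ℕ in atTop, ∃ n : ℕ, 1 ≤ n ∧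
      (n : ℝ) ≤ (s : ℝ) ^ 2 / 3 - √(c / 24) / 6 * s * √(Real.log s / Real.log (Real.log s)) ∧
      ¬ Good n s := by
    filter_upwards [hlog.eventually_ge_atTop 6, hlog.eventually_ge_atTop (6 * (N₀ + 1)),
      tendsto_rate.eventually_ge_atTop (12 / c),
      (Real.tendsto_sqrt_atTop.comp tendsto_rate).eventually_ge_atTop (20 / √(c / 24)),
      eventually_ge_atTop 4] with s hs1 hs2 hs3 hs4 hs5
    simp only [Function.comp_apply] at hs4
    have hs0 : (0 : ℝ) < s := by exact_mod_cast (by omega : 0 < s)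
    set y := Nat.log 16 s with hy
    have hy1 : 16 ^ y ≤ s := Nat.pow_log_le_self 16 (by omega)
    have hy2 : s < 16 ^ (y + 1) := Nat.lt_pow_succ_log_self (by norm_num) s
    have l2 := Real.log_two_lt_d9
    have l2' := Real.log_two_gt_d9
    have l16 : Real.log 16 = 4 * Real.log 2 := by
      rw [show (16 : ℝ) = 2 ^ 4 by norm_num, Real.log_pow]; norm_num
    have hy3 : (y : ℝ) * Real.log 16 ≤ Real.log s := by
      rw [← Real.log_pow]
      apply Real.log_le_log (by positivity)
      exact_mod_cast hy1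
    have hy4 : Real.log s ≤ (y + 1) * Real.log 16 := by
      have : Real.log s ≤ Real.log ((16 : ℝ) ^ (y + 1)) := by
        apply Real.log_le_log hs0
        exact_mod_cast hy2.le
      rw [Real.log_pow] at this
      push_cast at this
      exact this
    have hy5 : Real.log s / 6 ≤ y := by
      nlinarith
    have hyN : N₀ ≤ y := by
      have : (N₀ : ℝ) ≤ y := by linarith
      exact_mod_cast this
    have hy1' : (1 : ℝ) ≤ y := by linarith
    have hyle : (y : ℝ) ≤ Real.log s := by nlinarith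
    have hL0 : 0 < Real.log (Real.log s) := Real.log_pos (by linarith)
    have hlogy : Real.log y ≤ Real.log (Real.log s) := Real.log_le_log (by linarith) hyle
    have hcount := hN₀ y hyN
    set L := Real.log s / Real.log (Real.log s) with hL
    have hcard : c / 12 * L ≤ (TS y).card := by
      have h1 : (((Ioc 0 y).filter (fun p => p.Prime ∧ p % 3 = 2)).card : ℝ) ≤ (TS y).card + 1 := by
        exact_mod_cast TS_card y
      have h2 : c * (Real.log s / 6) ≤ ((TS y).card + 1) * Real.log (Real.log s) := by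
        calc c * (Real.log s / 6) ≤ c * y := mul_le_mul_of_nonneg_left hy5 hc.le
          _ ≤ _ := hcount
          _ ≤ ((TS y).card + 1) * Real.log y :=
              mul_le_mul_of_nonneg_right h1 (Real.log_nonneg hy1')
          _ ≤ _ := mul_le_mul_of_nonneg_left hlogy (by positivity)
      have h3 : c / 6 * L ≤ (TS y).card + 1 := by
        rw [hL, ← mul_div_assoc, div_le_iff₀ hL0]
        linarith
      have h4 : 1 ≤ c / 12 * L := by
        have h5 : c / 12 * (12 / c) ≤ c / 12 * L := mul_le_mul_of_nonneg_left hs3 (by positivity)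
        have h6 : c / 12 * (12 / c) = 1 := by field_simp
        linarith
      linarith
    set k := Nat.sqrt ((TS y).card / 2) with hk
    have hk1 : k * k ≤ (TS y).card / 2 := Nat.sqrt_le _
    have hk2 : (TS y).card / 2 < (k + 1) * (k + 1) := Nat.lt_succ_sqrt _
    have hk3 : 2 * k ^ 2 ≤ (TS y).card := by
      rw [pow_two]; omega
    have hys : y ≤ s := (Nat.log_le_self 16 s)
    have hks : k ≤ s + 2 := by
      have h1 := TS_card_le y
      have h2 : k ≤ k * k ∨ k = 0 := by
        rcases Nat.eq_zero_or_pos k with h | h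
        · exact Or.inr h
        · exact Or.inl (Nat.le_mul_of_pos_left k h)
      omega
    obtain ⟨n, hn1, hn2, hn3⟩ := exists_bad hks (TS y) (fun p hp => TS_mem hp) hk3
    refine ⟨n, hn1, ?_, hn3⟩
    have hP : ∏ p ∈ TS y, p ^ 2 ≤ s := (TS_prod y).trans hy1
    have hn4 : n ≤ ((s + 2) ^ 2 - k * (s + 2)) / 3 + s := by omega
    have hks2 : k * (s + 2) ≤ (s + 2) ^ 2 := by nlinarith
    have hn5 : 3 * n + k * (s + 2) ≤ (s + 2) ^ 2 + 3 * s := by omega
    have hn6 : 3 * (n : ℝ) + k * (s + 2) ≤ (s + 2) ^ 2 + 3 * s := by exact_mod_cast hn5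
    -- the size of k
    have hk4 : (TS y).card < 2 * ((k + 1) * (k + 1)) := by omega
    have hk5 : c / 24 * L ≤ ((k : ℝ) + 1) ^ 2 := by
      have : ((TS y).card : ℝ) ≤ 2 * (((k : ℝ) + 1) * (k + 1)) := by exact_mod_cast hk4.le
      nlinarith
    have hk6 : √(c / 24) * √L ≤ k + 1 := by
      rw [← Real.sqrt_mul (by positivity)]
      exact Real.sqrt_le_iff.2 ⟨by positivity, hk5⟩
    have hk7 : 20 ≤ √(c / 24) * √L := by
      have h0 : 0 < √(c / 24) := Real.sqrt_pos.2 (by positivity)
      rw [div_le_iff₀ h0] at hs4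
      linarith
    have hs6 : (4 : ℝ) ≤ s := by exact_mod_cast hs5
    have hk8 : √(c / 24) * √L / 2 ≤ k - 9 := by linarith
    have hk9 : s * (√(c / 24) * √L / 2) ≤ s * ((k : ℝ) - 9) :=
      mul_le_mul_of_nonneg_left hk8 hs0.le
    have e1 : √(c / 24) / 6 * s * √L = s * (√(c / 24) * √L / 2) / 3 := by ring
    rw [e1]
    nlinarith
  obtain ⟨s₀, hs₀⟩ := eventually_atTop.1 ev
  exact ⟨s₀, hs₀⟩

end Pool.Agent.Helper74.BS
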