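import Pool.Agent.Helper74.BS.Defs
import Pool.Agent.Helper74.BS.Rate
import Pool.Agent.Helper74.BS.Lower

set_option autoImplicit false

/-!
# The bounds for `g(2, s)`
-/

namespace Pool.Agent.Helper74.BS

open Filter Finset

theorem phi_le_two_iff {n s : ℕ} (hn : 1 ≤ n) (hs : 1 ≤ s) : phi n s ≤ 2 ↔ Good n s := by
  classical
  have : NeZero n := ⟨by omega⟩
  constructor
  · intro h
    have hne : {k | ∃ A : Finset (ZMod n), A.card = k ∧ IsBasis n s A}.Nonempty := by
      refine ⟨_, Finset.univ, rfl, fun x => ⟨fun z => if z = x then 1 else 0, ?_, ?_⟩⟩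
      · rw [Finset.sum_ite_eq']
        simpa using hs
      · simp
    obtain ⟨A, hA, hB⟩ := Nat.sInf_mem hne
    have hA2 : A.card ≤ 2 := by
      rw [hA]
      exact h
    rcases (by omega : A.card = 0 ∨ A.card = 1 ∨ A.card = 2) with h0 | h1 | h2
    · rw [Finset.card_eq_zero] at h0
      refine ⟨0, 0, fun x => ?_⟩
      obtain ⟨c, _, hx⟩ := hB x
      rw [h0, Finset.sum_empty] at hx
      exact ⟨0, 0, by omega, by rw [hx]; simp⟩
    · obtain ⟨a, rfl⟩ := Finset.card_eq_one.1 h1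
      refine ⟨a, 0, fun x => ?_⟩
      obtain ⟨c, hc, hx⟩ := hB x
      rw [Finset.sum_singleton] at hc hx
      exact ⟨c a, 0, by omega, by rw [hx]; simp⟩
    · obtain ⟨a, b, hab, rfl⟩ := Finset.card_eq_two.1 h2
      refine ⟨a, b, fun x => ?_⟩
      obtain ⟨c, hc, hx⟩ := hB x
      rw [Finset.sum_pair hab] at hc hx
      exact ⟨c a, c b, hc, hx⟩
  · rintro ⟨a, b, h⟩
    have hB : IsBasis n s ({a, b} : Finset (ZMod n)) := by
      intro x
      obtain ⟨i, j, hij, hx⟩ := h x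
      by_cases hab : a = b
      · subst hab
        refine ⟨fun _ => i + j, ?_, ?_⟩
        · rw [Finset.pair_eq_singleton, Finset.sum_singleton]
          exact hij
        · rw [Finset.pair_eq_singleton, Finset.sum_singleton, add_nsmul]
          exact hx
      · refine ⟨fun z => if z = a then i else j, ?_, ?_⟩
        · rw [Finset.sum_pair hab, if_pos rfl, if_neg (Ne.symm hab)]
          exact hij
        · rw [Finset.sum_pair hab]
          beta_reduce
          rw [if_pos rfl, if_neg (Ne.symm hab)]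
          exact hx
    have h1 : phi n s ≤ ({a, b} : Finset (ZMod n)).card := Nat.sInf_le ⟨_, rfl, hB⟩
    exact h1.trans Finset.card_le_two

theorem g_set_eq {s : ℕ} (hs : 1 ≤ s) : {N | ∀ n, 1 ≤ n → n ≤ N → phi n s ≤ 2} =
    {N | ∀ n, 1 ≤ n → n ≤ N → Good n s} := by
  ext N
  constructor
  · intro h n h1 h2
    exact (phi_le_two_iff h1 hs).1 (h n h1 h2)
  · intro h n h1 h2
    exact (phi_le_two_iff h1 hs).2 (h n h1 h2)

theorem g_bdd {s n : ℕ} (hn : 1 ≤ n) (h : ¬ Good n s) :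
    ∀ N ∈ {N | ∀ n, 1 ≤ n → n ≤ N → Good n s}, N + 1 ≤ n := by
  intro N hN
  by_contra h2
  exact h (hN n hn (by omega))

theorem isGreatest_g {s : ℕ} (hs : 1 ≤ s) :
    IsGreatest {N | ∀ n, 1 ≤ n → n ≤ N → phi n s ≤ 2} (g s) := by
  have hne : {N | ∀ n, 1 ≤ n → n ≤ N → phi n s ≤ 2}.Nonempty :=
    ⟨0, fun n h1 h2 => by omega⟩
  have hbdd : BddAbove {N | ∀ n, 1 ≤ n → n ≤ N → phi n s ≤ 2} := by
    rw [g_set_eq hs]
    obtain ⟨n, hn, _, hn2⟩ := exists_bad (s := s) (k := 0) (by omega) ∅ (by simp) (by simp)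
    refine ⟨n, fun N hN => ?_⟩
    have := g_bdd hn hn2 N hN
    omega
  exact ⟨Nat.sSup_mem hne hbdd, fun N hN => le_csSup hbdd hN⟩

theorem g_lt {s n : ℕ} (hs : 1 ≤ s) (hn : 1 ≤ n) (h : ¬ Good n s) : g s + 1 ≤ n := by
  have h1 := (isGreatest_g hs).1
  rw [g_set_eq hs] at h1
  exact g_bdd hn h _ h1

/-- the lower bound -/
theorem g_ge {s : ℕ} (hs : 1 ≤ s) : (s : ℝ) ^ 2 / 3 - 3 * s * √s - 1 ≤ g s := by
  by_cases h0 : (s : ℝ) ^ 2 / 3 - 3 * s * √s < 0
  · have : (0 : ℝ) ≤ g s := Nat.cast_nonneg _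
    linarith
  · push Not at h0
    have h1 : ⌊(s : ℝ) ^ 2 / 3 - 3 * s * √s⌋₊ ≤ g s := by
      apply (isGreatest_g hs).2
      rw [g_set_eq hs]
      intro n hn1 hn2
      apply good_lower hn1
      have h2 := Nat.floor_le h0
      have h3 : (n : ℝ) ≤ ⌊(s : ℝ) ^ 2 / 3 - 3 * s * √s⌋₊ := by exact_mod_cast hn2
      linarith
    have h2 := Nat.lt_floor_add_one ((s : ℝ) ^ 2 / 3 - 3 * s * √s)
    have h3 : ((⌊(s : ℝ) ^ 2 / 3 - 3 * s * √s⌋₊ : ℕ) : ℝ) ≤ g s := by exact_mod_cast h1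
    linarith

/-- the upper bound -/
theorem g_le : ∃ c : ℝ, 0 < c ∧ ∃ s₀ : ℕ, ∀ s : ℕ, s₀ ≤ s →
    (g s : ℝ) ≤ (s : ℝ) ^ 2 / 3 - c * s * √(Real.log s / Real.log (Real.log s)) := by
  obtain ⟨c, hc, s₀, h⟩ := exists_bad_rate
  refine ⟨c, hc, max s₀ 1, fun s hs => ?_⟩
  obtain ⟨n, hn1, hn2, hn3⟩ := h s ((le_max_left _ _).trans hs)
  have h1 := g_lt ((le_max_right _ _).trans hs) hn1 hn3
  have h2 : (g s : ℝ) + 1 ≤ n := by exact_mod_cast h1
  linarith

/-- no quadratic polynomial approximates `g(2, s)` up to `O(s)` -/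
theorem g_not_quadratic (a b d : ℝ) :
    Tendsto (fun s : ℕ => |(g s : ℝ) - (a * (s : ℝ) ^ 2 + b * s + d)| / s) atTop atTop := by
  obtain ⟨c, hc, s₀, hle⟩ := g_le
  have hcast : Tendsto (fun s : ℕ => (s : ℝ)) atTop atTop := tendsto_natCast_atTop_atTop
  have hsqrt : Tendsto (fun s : ℕ => √(s : ℝ)) atTop atTop := Real.tendsto_sqrt_atTop.comp hcast
  by_cases ha : a < 1 / 3
  · -- the lower bound
    have h1 : Tendsto (fun s : ℕ => √(s : ℝ) * ((1 / 3 - a) * √(s : ℝ) - 3) + (-|b| - |d| - 1))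
        atTop atTop := by
      apply tendsto_atTop_add_const_right
      apply Tendsto.atTop_mul_atTop₀ hsqrt
      have h2 : Tendsto (fun s : ℕ => (1 / 3 - a) * √(s : ℝ) + (-3)) atTop atTop :=
        tendsto_atTop_add_const_right _ _ (hsqrt.const_mul_atTop (by linarith))
      exact h2
    refine tendsto_atTop_mono' atTop ?_ h1
    filter_upwards [eventually_ge_atTop 1] with s hs
    have hs0 : (1 : ℝ) ≤ s := by exact_mod_cast hs
    have hs1 : (0 : ℝ) < s := by linarith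
    have hg := g_ge hs
    have hsq := Real.mul_self_sqrt hs1.le
    rw [le_div_iff₀ hs1]
    have hb : b * s ≤ |b| * s := mul_le_mul_of_nonneg_right (le_abs_self b) hs1.le
    have hd : d ≤ |d| * s := by
      have h3 := le_abs_self d
      have h4 : |d| * 1 ≤ |d| * s := mul_le_mul_of_nonneg_left hs0 (abs_nonneg d)
      linarith
    refine le_trans ?_ (le_abs_self _)
    have e : (√(s : ℝ) * ((1 / 3 - a) * √(s : ℝ) - 3) + (-|b| - |d| - 1)) * s =
        (1 / 3 - a) * (√(s : ℝ) * √(s : ℝ)) * s - 3 * s * √s - |b| * s - |d| * s - s := by ring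
    rw [e, hsq]
    nlinarith
  · -- the upper bound
    push Not at ha
    have h1 : Tendsto (fun s : ℕ => c * √(Real.log s / Real.log (Real.log s)) + (-|b| - |d|))
        atTop atTop := by
      apply tendsto_atTop_add_const_right
      exact (Real.tendsto_sqrt_atTop.comp tendsto_rate).const_mul_atTop hc
    refine tendsto_atTop_mono' atTop ?_ h1
    filter_upwards [eventually_ge_atTop s₀, eventually_ge_atTop 1] with s hs hs'
    have hs0 : (1 : ℝ) ≤ s := by exact_mod_cast hs'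
    have hs1 : (0 : ℝ) < s := by linarith
    have hg := hle s hs
    rw [le_div_iff₀ hs1]
    have hb : -(|b| * s) ≤ b * s := by
      have := mul_le_mul_of_nonneg_right (neg_abs_le b) hs1.le
      linarith
    have hd : -(|d| * s) ≤ d := by
      have h3 := neg_abs_le d
      have h4 : |d| * 1 ≤ |d| * s := mul_le_mul_of_nonneg_left hs0 (abs_nonneg d)
      linarith
    have ha2 : (s : ℝ) ^ 2 / 3 ≤ a * (s : ℝ) ^ 2 := by nlinarith [sq_nonneg (s : ℝ)]
    refine le_trans ?_ (neg_le_abs _)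
    linarith

end Pool.Agent.Helper74.BS
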