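import Pool.Agent.Helper74.BS.Crit2

/-!
# Moduli without a two-element `s`-basis: inert primes
-/

set_option autoImplicit false

namespace Pool.Agent.Helper74.BS

open Finset

/-- primes `p ≡ 2 (mod 3)`, `p ≠ 2`, are inert for `u² + 3 v²` -/
lemma inert {p : ℕ} (hp : p.Prime) (h3 : p % 3 = 2) (h2 : p ≠ 2) {u v : ℤ}
    (h : (p : ℤ) ∣ u ^ 2 + 3 * v ^ 2) : (p : ℤ) ∣ u ∧ (p : ℤ) ∣ v := by
  have : Fact p.Prime := ⟨hp⟩
  have hv : (p : ℤ) ∣ v := by
    by_contra hv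
    have hv0 : ((v : ℤ) : ZMod p) ≠ 0 := fun h0 => hv ((ZMod.intCast_zmod_eq_zero_iff_dvd _ _).1 h0)
    have h1 : ((u : ℤ) : ZMod p) ^ 2 + 3 * ((v : ℤ) : ZMod p) ^ 2 = 0 := by
      have := (ZMod.intCast_zmod_eq_zero_iff_dvd _ _).2 h
      push_cast at this
      exact this
    have htwo : (2 : ZMod p) ≠ 0 := by
      intro h0
      have : ((2 : ℕ) : ZMod p) = 0 := by exact_mod_cast h0
      rw [ZMod.natCast_eq_zero_iff] at this
      exact h2 ((Nat.prime_dvd_prime_iff_eq hp Nat.prime_two).1 this)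
    have hthree : (3 : ZMod p) ≠ 0 := by
      intro h0
      have : ((3 : ℕ) : ZMod p) = 0 := by exact_mod_cast h0
      rw [ZMod.natCast_eq_zero_iff] at this
      have := (Nat.prime_dvd_prime_iff_eq hp Nat.prime_three).1 this
      omega
    set z : ZMod p := ((u : ℤ) : ZMod p) / ((v : ℤ) : ZMod p) with hz
    have hz2 : z ^ 2 = -3 := by
      rw [hz, div_pow, div_eq_iff (pow_ne_zero 2 hv0)]
      linear_combination h1
    set ω : ZMod p := (-1 + z) / 2 with hω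
    have hω2 : ω ^ 2 + ω + 1 = 0 := by
      rw [hω]
      field_simp
      linear_combination hz2
    have hω3 : ω ^ 3 = 1 := by
      have : ω ^ 3 - 1 = (ω - 1) * (ω ^ 2 + ω + 1) := by ring
      rw [hω2, mul_zero] at this
      exact sub_eq_zero.1 this
    have hω1 : ω ≠ 1 := by
      intro h1
      rw [h1] at hω2
      apply hthree
      linear_combination hω2
    have hω0 : ω ≠ 0 := by
      intro h0
      rw [h0] at hω3
      norm_num at hω3
    have hord : orderOf ω = 3 := by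
      apply orderOf_eq_prime hω3 hω1
    have hdvd := ZMod.orderOf_dvd_card_sub_one hω0
    rw [hord] at hdvd
    have := hp.two_le
    omega
  refine ⟨?_, hv⟩
  have h1 : (p : ℤ) ∣ u ^ 2 := (dvd_add_left ((hv.mul_right v).mul_left 3 |>.trans
    (by rw [pow_two]))).1 h
  exact (Nat.prime_iff_prime_int.1 hp).dvd_of_dvd_pow h1

/-- an L-shape gives a value of the norm form -/
lemma lshape_norm {n s : ℕ} (hL : LShape n s) : ∃ S' e : ℕ, S' ≤ s + 2 ∧ 2 * e ≤ S' ∧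
    ∃ u v : ℤ, 4 * ((S' : ℤ) ^ 2 - S' * e + e ^ 2 - 3 * n) = u ^ 2 + 3 * v ^ 2 := by
  have main : ∀ l h w y : ℕ, w ≤ l → y ≤ h → w ≤ y → l * h = n + w * y → l + h ≤ s + 2 + w →
      ∃ S' e : ℕ, S' ≤ s + 2 ∧ 2 * e ≤ S' ∧
      ∃ u v : ℤ, 4 * ((S' : ℤ) ^ 2 - S' * e + e ^ 2 - 3 * n) = u ^ 2 + 3 * v ^ 2 := by
    intro l h w y hw hy hwy hdet hs
    obtain ⟨e, rfl⟩ := Nat.exists_eq_add_of_le hwy
    obtain ⟨S', hS'⟩ : ∃ S', l + h = S' + w := ⟨l + h - w, by omega⟩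
    have hdet' : (l : ℤ) * h = n + w * (w + e) := by exact_mod_cast hdet
    have hS'' : (l : ℤ) + h = S' + w := by exact_mod_cast hS'
    have hl : (l : ℤ) = S' + w - h := by linarith
    have key : 4 * ((S' : ℤ) ^ 2 - S' * e + e ^ 2 - 3 * n) =
        (3 * w - S' + 2 * e) ^ 2 + 3 * ((l : ℤ) - h) ^ 2 := by
      have hn : (n : ℤ) = (S' + w - h) * h - w * (w + e) := by rw [← hl]; linarith
      rw [hn, hl]
      ring
    rcases Nat.lt_or_ge S' (2 * e) with h1 | h1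
    · refine ⟨S', S' - e, by omega, by omega, (3 * w - S' + 2 * e), (l : ℤ) - h, ?_⟩
      rw [← key]
      have : ((S' - e : ℕ) : ℤ) = S' - e := by
        rw [Nat.cast_sub (by omega)]
      rw [this]
      ring
    · exact ⟨S', e, by omega, h1, _, _, key⟩
  obtain ⟨l, h, w, y, hw, hy, hdet, _, hs⟩ := hL
  rcases le_total w y with h1 | h1
  · rw [min_eq_left h1] at hs
    exact main l h w y hw hy h1 hdet hs
  · rw [min_eq_right h1] at hs
    exact main h l y w hy hw h1 (by rw [mul_comm, hdet, mul_comm w y]) (by omega)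

/-- the killing lemma -/
lemma not_lshape {s k n : ℕ} (q : ℕ → ℕ → ℕ)
    (hq : ∀ j e : ℕ, j < k → e < 2 * k → (q j e).Prime ∧ q j e % 3 = 2 ∧ q j e ≠ 2 ∧
      ((q j e : ℤ) ^ 2) ∣ ((s : ℤ) + 2 - j) ^ 2 - (s + 2 - j) * e + e ^ 2 - 3 * n - q j e)
    (hn : (s + 2) ^ 2 < 3 * n + k * (s + 2)) : ¬ LShape n s := by
  intro hL
  obtain ⟨S', e, h1, h2, u, v, huv⟩ := lshape_norm hL
  obtain ⟨j, hj⟩ : ∃ j, S' + j = s + 2 := ⟨s + 2 - S', by omega⟩
  have hpos : 0 ≤ 4 * ((S' : ℤ) ^ 2 - S' * e + e ^ 2 - 3 * n) := by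
    rw [huv]
    positivity
  have hn' : ((s : ℤ) + 2) ^ 2 < 3 * n + k * (s + 2) := by exact_mod_cast hn
  have hj' : (S' : ℤ) + j = s + 2 := by exact_mod_cast hj
  have h2' : 2 * (e : ℤ) ≤ S' := by exact_mod_cast h2
  rw [← hj'] at hn'
  have hjk : 2 * (j : ℤ) + e < 2 * k := by
    by_contra hcon
    push Not at hcon
    have e1 : (0 : ℤ) ≤ e := by positivity
    have e2 : (0 : ℤ) ≤ j := by positivity
    have e3 : (0 : ℤ) ≤ S' := by positivity
    have e4 : (e : ℤ) * (2 * e) ≤ e * S' := mul_le_mul_of_nonneg_left h2' e1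
    have e5 : (2 * (k : ℤ)) * (S' + j) ≤ (2 * j + e) * (S' + j) :=
      mul_le_mul_of_nonneg_right hcon (by linarith)
    nlinarith [mul_nonneg e1 e2, mul_nonneg e2 e2, mul_nonneg e2 e3]
  obtain ⟨hp, hp3, hp2, hd⟩ := hq j e (by omega) (by omega)
  have e6 : (s : ℤ) + 2 - j = S' := by linarith
  rw [e6] at hd
  set p := q j e with hpdef
  set m : ℤ := (S' : ℤ) ^ 2 - S' * e + e ^ 2 - 3 * n with hm
  have hpm : (p : ℤ) ∣ m := by
    have : (p : ℤ) ∣ m - p := (Dvd.intro_left _ (by rw [pow_two])).trans hd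
    have h3 := dvd_add this (dvd_refl (p : ℤ))
    rwa [sub_add_cancel] at h3
  obtain ⟨hu, hv⟩ := inert hp hp3 hp2 (u := u) (v := v) (by
    rw [← huv]
    exact hpm.mul_left 4)
  have hsq : (p : ℤ) ^ 2 ∣ 4 * m := by
    rw [huv]
    exact dvd_add (pow_dvd_pow_of_dvd hu 2) ((pow_dvd_pow_of_dvd hv 2).mul_left 3)
  have hcop : IsCoprime ((p : ℤ) ^ 2) 4 := by
    have : Nat.Coprime (p ^ 2) 4 := by
      apply Nat.Coprime.pow_left
      rw [Nat.Prime.coprime_iff_not_dvd hp]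
      intro h4
      have : p ∣ 2 ^ 2 := by simpa using h4
      exact hp2 ((Nat.prime_dvd_prime_iff_eq hp Nat.prime_two).1 (hp.dvd_of_dvd_pow this))
    have h5 := Nat.isCoprime_iff_coprime.2 this
    exact_mod_cast h5
  have hsq' : (p : ℤ) ^ 2 ∣ m := hcop.dvd_of_dvd_mul_left hsq
  have h7 : (p : ℤ) ^ 2 ∣ p := by
    have := dvd_sub hsq' hd
    rwa [sub_sub_cancel] at this
  have h8 := Int.le_of_dvd (by exact_mod_cast hp.pos) h7
  have h9 : (2 : ℤ) ≤ p := by exact_mod_cast hp.two_le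
  nlinarith

/-- a solution of congruences in a window -/
lemma window (X P n₀ : ℕ) (hP : 0 < P) : ∃ n, X < n ∧ n ≤ X + P ∧ n ≡ n₀ [MOD P] := by
  refine ⟨X + 1 + (n₀ + (P - 1) * (X + 1)) % P, by omega, ?_, ?_⟩
  · have := Nat.mod_lt (n₀ + (P - 1) * (X + 1)) hP
    omega
  · have h1 : (n₀ + (P - 1) * (X + 1)) % P ≡ n₀ + (P - 1) * (X + 1) [MOD P] := Nat.mod_modEq _ _
    have h2 := h1.add_left (X + 1)
    refine h2.trans ?_
    obtain ⟨Q, rfl⟩ := Nat.exists_eq_add_of_lt hP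
    have h3 : X + 1 + (n₀ + (0 + Q + 1 - 1) * (X + 1)) = n₀ + (0 + Q + 1) * (X + 1) := by
      have : 0 + Q + 1 - 1 = Q := by omega
      rw [this]
      ring
    rw [h3]
    unfold Nat.ModEq
    exact Nat.add_mul_mod_self_left _ _ _

/-- a modulus without a good pair in a window -/
theorem exists_bad {s k : ℕ} (hk : k ≤ s + 2) (T : Finset ℕ)
    (hT : ∀ p ∈ T, p.Prime ∧ p % 3 = 2 ∧ p ≠ 2) (hc : 2 * k ^ 2 ≤ T.card) :
    ∃ n, 1 ≤ n ∧ n ≤ ((s + 2) ^ 2 - k * (s + 2)) / 3 + ∏ p ∈ T, p ^ 2 ∧ ¬ Good n s := by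
  classical
  -- an injective assignment of primes
  have hcard : (range k ×ˢ range (2 * k)).card ≤ T.card := by
    rw [card_product, card_range, card_range]
    nlinarith
  obtain ⟨U, hU, hUc⟩ := Finset.exists_subset_card_eq hcard
  have hequiv : Fintype.card (range k ×ˢ range (2 * k) : Finset (ℕ × ℕ)) = Fintype.card U := by
    rw [Fintype.card_coe, Fintype.card_coe, hUc]
  let φ : (range k ×ˢ range (2 * k) : Finset (ℕ × ℕ)) ≃ U := Fintype.equivOfCardEq hequiv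
  let q : ℕ × ℕ → ℕ := fun i => if h : i ∈ range k ×ˢ range (2 * k) then (φ ⟨i, h⟩ : ℕ) else 1
  have hqU : ∀ i (h : i ∈ range k ×ˢ range (2 * k)), q i = (φ ⟨i, h⟩ : ℕ) := by
    intro i h
    simp only [q, dif_pos h]
  have hqT : ∀ i ∈ range k ×ˢ range (2 * k), q i ∈ T := by
    intro i h
    rw [hqU i h]
    exact hU (φ ⟨i, h⟩).2
  have hqinj : ∀ i ∈ range k ×ˢ range (2 * k), ∀ j ∈ range k ×ˢ range (2 * k),
      q i = q j → i = j := by
    intro i hi j hj hij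
    rw [hqU i hi, hqU j hj] at hij
    have := φ.injective (Subtype.ext hij)
    exact congrArg Subtype.val this
  -- the Chinese remainder theorem
  let a : ℕ × ℕ → ℕ := fun i =>
    ((3 : ZMod (q i ^ 2))⁻¹ * (((s : ZMod (q i ^ 2)) + 2 - i.1) ^ 2
      - (s + 2 - i.1) * i.2 + i.2 ^ 2 - q i)).val
  have hcop : Set.Pairwise (↑(range k ×ˢ range (2 * k)) : Set (ℕ × ℕ))
      (Function.onFun Nat.Coprime fun i => q i ^ 2) := by
    intro i hi j hj hij
    apply Nat.Coprime.pow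
    rw [Nat.coprime_primes (hT _ (hqT i hi)).1 (hT _ (hqT j hj)).1]
    exact fun h => hij (hqinj i hi j hj h)
  obtain ⟨n₀, hn₀⟩ := Nat.chineseRemainderOfFinset a (fun i => q i ^ 2)
    (range k ×ˢ range (2 * k)) (fun i hi => pow_ne_zero 2 (hT _ (hqT i hi)).1.ne_zero) hcop
  have hPpos : 0 < ∏ p ∈ T, p ^ 2 := Finset.prod_pos fun p hp => pow_pos (hT p hp).1.pos 2
  obtain ⟨n, hn1, hn2, hn3⟩ := window (((s + 2) ^ 2 - k * (s + 2)) / 3) (∏ p ∈ T, p ^ 2) n₀ hPpos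
  refine ⟨n, by omega, hn2, ?_⟩
  rw [good_iff_lshape (by omega)]
  apply not_lshape (k := k) (fun j e => q (j, e))
  · intro j e hj he
    have hmem : (j, e) ∈ range k ×ˢ range (2 * k) := by
      rw [mem_product, mem_range, mem_range]
      exact ⟨hj, he⟩
    obtain ⟨hp, hp3, hp2⟩ := hT _ (hqT _ hmem)
    refine ⟨hp, hp3, hp2, ?_⟩
    set p := q (j, e) with hpdef
    have hmod : n ≡ a (j, e) [MOD p ^ 2] := by
      have h1 : n ≡ n₀ [MOD p ^ 2] := hn3.of_dvd (Finset.dvd_prod_of_mem (fun p => p ^ 2)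
        (hqT _ hmem))
      exact h1.trans (hn₀ _ hmem)
    have hne : NeZero (p ^ 2) := ⟨pow_ne_zero 2 hp.ne_zero⟩
    have h3u : IsUnit ((3 : ℕ) : ZMod (p ^ 2)) := by
      rw [ZMod.isUnit_iff_coprime]
      apply Nat.Coprime.pow_right
      rw [Nat.coprime_primes Nat.prime_three hp]
      intro h
      omega
    have h3 : (3 : ZMod (p ^ 2)) * (3 : ZMod (p ^ 2))⁻¹ = 1 := by
      have := ZMod.mul_inv_of_unit _ h3u
      simpa using this
    have h4 : (n : ZMod (p ^ 2)) = (3 : ZMod (p ^ 2))⁻¹ * (((s : ZMod (p ^ 2)) + 2 - j) ^ 2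
      - (s + 2 - j) * e + e ^ 2 - p) := by
      rw [← ZMod.natCast_eq_natCast_iff] at hmod
      rw [hmod]
      simp only [a]
      rw [ZMod.natCast_zmod_val]
    have h5 : (((((s : ℤ) + 2 - j) ^ 2 - (s + 2 - j) * e + e ^ 2 - 3 * n - p : ℤ)) :
        ZMod (p ^ 2)) = 0 := by
      push_cast
      rw [h4]
      linear_combination (-(((s : ZMod (p ^ 2)) + 2 - j) ^ 2
        - (s + 2 - j) * e + e ^ 2 - p)) * h3
    have h6 := (ZMod.intCast_zmod_eq_zero_iff_dvd _ _).1 h5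
    exact_mod_cast h6
  · have h1 : k * (s + 2) ≤ (s + 2) ^ 2 := by nlinarith
    omega

end Pool.Agent.Helper74.BS
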